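import Mathlib
import Pool.Agent.R127.PathPairDefs

/-! A family of planar path-pairable graphs of unbounded diameter: the graphs. -/

set_option autoImplicit false

namespace Pool.Agent.K3h79.PP

open SimpleGraph

/-- Vertices: a hub, the nodes of a binary tree, and the points `0, …, 2 ^ (r + s)`. -/
inductive Vt (r s : ℕ) : Type
  | hub : Vt r s
  | node (i : Fin (2 ^ r)) : Vt r s
  | pol (u : Fin (2 ^ (r + s) + 1)) : Vt r s

/-- Labels of the edges. -/
inductive Lb : Type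
  | hubE (v : ℕ) : Lb
  | polE (i x : ℕ) : Lb
  | treeE (j : ℕ) : Lb

open Vt Lb

variable {r s : ℕ}

/-- The node with number `i`. -/
def nd (i : ℕ) : Vt r s := node (Fin.ofNat (2 ^ r) i)

/-- The point with number `u`. -/
def pl (u : ℕ) : Vt r s := pol (Fin.ofNat (2 ^ (r + s) + 1) u)

/-- The lower end of the tree edge with number `j`. -/
def tr (j : ℕ) : Vt r s := if j < 2 ^ r then nd j else pl ((j - 2 ^ r) * 2 ^ s)

theorem nd_inj {i j : ℕ} (hi : i < 2 ^ r) (hj : j < 2 ^ r) (h : (nd i : Vt r s) = nd j) :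
    i = j := by
  unfold nd at h
  have h1 : (Fin.ofNat (2 ^ r) i) = Fin.ofNat (2 ^ r) j := by injection h
  have h2 := congrArg Fin.val h1
  simpa [Fin.ofNat, Nat.mod_eq_of_lt hi, Nat.mod_eq_of_lt hj] using h2

theorem pl_inj {i j : ℕ} (hi : i ≤ 2 ^ (r + s)) (hj : j ≤ 2 ^ (r + s))
    (h : (pl i : Vt r s) = pl j) : i = j := by
  unfold pl at h
  have h1 : (Fin.ofNat (2 ^ (r + s) + 1) i) = Fin.ofNat (2 ^ (r + s) + 1) j := by injection h
  have h2 := congrArg Fin.val h1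
  simpa [Fin.ofNat, Nat.mod_eq_of_lt (Nat.lt_succ_of_le hi),
    Nat.mod_eq_of_lt (Nat.lt_succ_of_le hj)] using h2

theorem nd_ne_pl (i j : ℕ) : (nd i : Vt r s) ≠ pl j := by
  unfold nd pl
  intro h
  cases h

theorem nd_ne_hub (i : ℕ) : (nd i : Vt r s) ≠ hub := by
  unfold nd
  intro h
  cases h

theorem pl_ne_hub (i : ℕ) : (pl i : Vt r s) ≠ hub := by
  unfold pl
  intro h
  cases h

theorem exists_nd (i : Fin (2 ^ r)) : (node i : Vt r s) = nd i.val := by
  unfold nd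
  congr 1
  apply Fin.ext
  simp [Fin.ofNat, Nat.mod_eq_of_lt i.isLt]

theorem exists_pl (u : Fin (2 ^ (r + s) + 1)) : (pol u : Vt r s) = pl u.val := by
  unfold pl
  congr 1
  apply Fin.ext
  simp [Fin.ofNat, Nat.mod_eq_of_lt u.isLt]

/-- every vertex is the hub, a node or a point -/
theorem vt_cases (v : Vt r s) :
    v = hub ∨ (∃ i, i < 2 ^ r ∧ v = nd i) ∨ ∃ u, u ≤ 2 ^ (r + s) ∧ v = pl u := by
  cases v with
  | hub => exact Or.inl rfl
  | node i => exact Or.inr (Or.inl ⟨i.val, i.isLt, exists_nd i⟩)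
  | pol u => exact Or.inr (Or.inr ⟨u.val, Nat.lt_succ_iff.1 u.isLt, exists_pl u⟩)

/-- The labels that are used. -/
def Vd (r s : ℕ) : Lb → Prop
  | hubE v => v ≤ 2 ^ (r + s)
  | polE i x => i ≤ s ∧ 2 ^ i ∣ x ∧ x + 2 ^ i ≤ 2 ^ (r + s)
  | treeE j => 1 ≤ j ∧ j < 2 ^ (r + 1)

/-- First end of an edge. -/
def e1 : Lb → Vt r s
  | hubE _ => hub
  | polE _ x => pl x
  | treeE j => nd (j / 2)

/-- Second end of an edge. -/
def e2 : Lb → Vt r s
  | hubE v => pl v
  | polE i x => pl (x + 2 ^ i)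
  | treeE j => tr j

theorem tr_pos_le {j : ℕ} (h1 : j < 2 ^ (r + 1)) (h2 : 2 ^ r ≤ j) :
    (j - 2 ^ r) * 2 ^ s + 2 ^ s ≤ 2 ^ (r + s) := by
  have h3 : j - 2 ^ r + 1 ≤ 2 ^ r := by
    rw [pow_succ] at h1
    omega
  calc (j - 2 ^ r) * 2 ^ s + 2 ^ s = (j - 2 ^ r + 1) * 2 ^ s := by ring
    _ ≤ 2 ^ r * 2 ^ s := Nat.mul_le_mul_right _ h3
    _ = 2 ^ (r + s) := by rw [pow_add]

theorem half_lt {j : ℕ} (h : j < 2 ^ (r + 1)) : j / 2 < 2 ^ r := by
  rw [pow_succ] at h
  omega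

theorem tr_inj {i j : ℕ} (hi : i < 2 ^ (r + 1)) (hj : j < 2 ^ (r + 1))
    (h : (tr i : Vt r s) = tr j) : i = j := by
  unfold tr at h
  have hs : 0 < 2 ^ s := by positivity
  split_ifs at h with h1 h2 h2
  · exact nd_inj h1 h2 h
  · exact absurd h (nd_ne_pl _ _)
  · exact absurd h.symm (nd_ne_pl _ _)
  · have h3 := pl_inj (by have := tr_pos_le (s := s) hi (not_lt.1 h1); omega)
      (by have := tr_pos_le (s := s) hj (not_lt.1 h2); omega) h
    have h4 := Nat.eq_of_mul_eq_mul_right hs h3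
    omega

theorem tr_ne_hub (j : ℕ) : (tr j : Vt r s) ≠ hub := by
  unfold tr
  split_ifs
  · exact nd_ne_hub _
  · exact pl_ne_hub _

theorem e1_ne_e2 {l : Lb} (h : Vd r s l) : (e1 l : Vt r s) ≠ e2 l := by
  cases l with
  | hubE v => exact (pl_ne_hub v).symm
  | polE i x =>
    intro h1
    obtain ⟨_, _, h2⟩ := h
    have h3 := pl_inj (by omega) h2 h1
    have : 0 < 2 ^ i := by positivity
    omega
  | treeE j =>
    intro h1
    obtain ⟨h2, h3⟩ := h
    have h4 : (e1 (treeE j) : Vt r s) = tr (j / 2) := by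
      unfold tr
      rw [if_pos (half_lt h3)]
      rfl
    rw [h4] at h1
    have h5 := tr_inj (lt_of_le_of_lt (Nat.div_le_self _ _) h3) h3 h1
    omega

/-- Two labels with the same ends agree. -/
theorem lb_inj {l l' : Lb} (h : Vd r s l) (h' : Vd r s l')
    (he : ((e1 l : Vt r s) = e1 l' ∧ (e2 l : Vt r s) = e2 l') ∨
      ((e1 l : Vt r s) = e2 l' ∧ (e2 l : Vt r s) = e1 l')) : l = l' := by
  cases l with
  | hubE v =>
    cases l' with
    | hubE v' =>
      rcases he with ⟨_, h2⟩ | ⟨h1, _⟩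
      · rw [pl_inj h h' h2]
      · exact absurd h1.symm (pl_ne_hub _)
    | polE i x =>
      rcases he with ⟨h1, _⟩ | ⟨h1, _⟩
      · exact absurd h1.symm (pl_ne_hub _)
      · exact absurd h1.symm (pl_ne_hub _)
    | treeE j =>
      rcases he with ⟨h1, _⟩ | ⟨h1, _⟩
      · exact absurd h1.symm (nd_ne_hub _)
      · exact absurd h1.symm (tr_ne_hub _)
  | polE i x =>
    cases l' with
    | hubE v' =>
      rcases he with ⟨h1, _⟩ | ⟨_, h1⟩
      · exact absurd h1 (pl_ne_hub _)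
      · exact absurd h1 (pl_ne_hub _)
    | polE i' x' =>
      obtain ⟨_, _, h2⟩ := h
      obtain ⟨_, _, h2'⟩ := h'
      have hp : 0 < 2 ^ i := by positivity
      have hp' : 0 < 2 ^ i' := by positivity
      rcases he with ⟨h3, h4⟩ | ⟨h3, h4⟩
      · have h5 := pl_inj (by omega) (by omega) h3
        have h6 := pl_inj h2 h2' h4
        subst h5
        have h7 : 2 ^ i = 2 ^ i' := by omega
        rw [Nat.pow_right_injective (le_refl 2) h7]
      · have h5 := pl_inj (by omega) h2' h3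
        have h6 := pl_inj h2 (by omega) h4
        omega
    | treeE j =>
      rcases he with ⟨h1, _⟩ | ⟨_, h1⟩
      · exact absurd h1.symm (nd_ne_pl _ _)
      · exact absurd h1.symm (nd_ne_pl _ _)
  | treeE j =>
    cases l' with
    | hubE v' =>
      rcases he with ⟨h1, _⟩ | ⟨_, h1⟩
      · exact absurd h1 (nd_ne_hub _)
      · exact absurd h1 (tr_ne_hub _)
    | polE i' x' =>
      rcases he with ⟨h1, _⟩ | ⟨h1, _⟩
      · exact absurd h1 (nd_ne_pl _ _)
      · exact absurd h1 (nd_ne_pl _ _)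
    | treeE j' =>
      obtain ⟨h2, h3⟩ := h
      obtain ⟨h2', h3'⟩ := h'
      rcases he with ⟨_, h4⟩ | ⟨h4, h5⟩
      · rw [tr_inj h3 h3' h4]
      · have e : ∀ j, j < 2 ^ (r + 1) → (nd (j / 2) : Vt r s) = tr (j / 2) := by
          intro j hj
          unfold tr
          rw [if_pos (half_lt hj)]
        have h6 : (tr (j / 2) : Vt r s) = tr j' := (e j h3).symm.trans h4
        have h7 : (tr j : Vt r s) = tr (j' / 2) := h5.trans (e j' h3')
        have h8 := tr_inj (lt_of_le_of_lt (Nat.div_le_self _ _) h3) h3' h6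
        have h9 := tr_inj h3 (lt_of_le_of_lt (Nat.div_le_self _ _) h3') h7
        omega

/-- The graph formed by a set of labels. -/
def gr (L : Lb → Prop) : SimpleGraph (Vt r s) where
  Adj a b := ∃ l, Vd r s l ∧ L l ∧ ((e1 l = a ∧ e2 l = b) ∨ (e1 l = b ∧ e2 l = a))
  symm := ⟨fun _ _ ⟨l, h1, h2, h3⟩ => ⟨l, h1, h2, h3.symm⟩⟩
  loopless := ⟨fun a ⟨l, h1, _, h3⟩ => by
    rcases h3 with ⟨h4, h5⟩ | ⟨h4, h5⟩ <;> exact e1_ne_e2 h1 (h4.trans h5.symm)⟩

/-- The graph. -/
def GG (r s : ℕ) : SimpleGraph (Vt r s) := gr fun _ => True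

theorem gr_le (L : Lb → Prop) : (gr L : SimpleGraph (Vt r s)) ≤ GG r s :=
  fun _ _ ⟨l, h1, _, h3⟩ => ⟨l, h1, trivial, h3⟩

theorem adj_of {L : Lb → Prop} {l : Lb} (h : Vd r s l) (hL : L l) :
    (gr L : SimpleGraph (Vt r s)).Adj (e1 l) (e2 l) := ⟨l, h, hL, Or.inl ⟨rfl, rfl⟩⟩

theorem gr_common {L L' : Lb → Prop} {a b : Vt r s} (h : (gr L : SimpleGraph (Vt r s)).Adj a b)
    (h' : (gr L' : SimpleGraph (Vt r s)).Adj a b) : ∃ l, Vd r s l ∧ L l ∧ L' l := by
  obtain ⟨l, h1, h2, h3⟩ := h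
  obtain ⟨l', h1', h2', h3'⟩ := h'
  have : l = l' := by
    apply lb_inj h1 h1'
    rcases h3 with ⟨rfl, rfl⟩ | ⟨rfl, rfl⟩ <;> rcases h3' with ⟨h4, h5⟩ | ⟨h4, h5⟩
    · exact Or.inl ⟨h4.symm, h5.symm⟩
    · exact Or.inr ⟨h5.symm, h4.symm⟩
    · exact Or.inr ⟨h5.symm, h4.symm⟩
    · exact Or.inl ⟨h4.symm, h5.symm⟩
  subst this
  exact ⟨l, h1, h2, h2'⟩

/-! ### The number of vertices -/

/-- The vertices as a sum type. -/
def vtEquiv : Vt r s ≃ Unit ⊕ Fin (2 ^ r) ⊕ Fin (2 ^ (r + s) + 1) where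
  toFun
    | hub => Sum.inl ()
    | node i => Sum.inr (Sum.inl i)
    | pol u => Sum.inr (Sum.inr u)
  invFun
    | Sum.inl () => hub
    | Sum.inr (Sum.inl i) => node i
    | Sum.inr (Sum.inr u) => pol u
  left_inv v := by cases v <;> rfl
  right_inv v := by rcases v with _ | _ | _ <;> rfl

instance : Fintype (Vt r s) := Fintype.ofEquiv _ vtEquiv.symm

theorem card_Vt : Fintype.card (Vt r s) = 1 + (2 ^ r + (2 ^ (r + s) + 1)) := by
  rw [Fintype.card_congr (vtEquiv (r := r) (s := s))]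
  simp

theorem even_card (hr : 1 ≤ r) : Even (Fintype.card (Vt r s)) := by
  rw [card_Vt]
  obtain ⟨k, rfl⟩ : ∃ k, r = k + 1 := ⟨r - 1, by omega⟩
  refine ⟨2 ^ k + 2 ^ (k + s) + 1, ?_⟩
  have h1 : 2 ^ (k + 1) = 2 ^ k * 2 := by rw [pow_succ]
  have h2 : 2 ^ (k + 1 + s) = 2 ^ (k + s) * 2 := by
    rw [show k + 1 + s = (k + s) + 1 by ring, pow_succ]
  rw [h1, h2]
  ring

/-! ### Connectedness and diameter -/

theorem adj_hub {u : ℕ} (hu : u ≤ 2 ^ (r + s)) : (GG r s).Adj hub (pl u) :=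
  adj_of (l := hubE u) hu trivial

theorem adj_tree {j : ℕ} (h1 : 1 ≤ j) (h2 : j < 2 ^ (r + 1)) : (GG r s).Adj (nd (j / 2)) (tr j) :=
  adj_of (l := treeE j) ⟨h1, h2⟩ trivial

theorem reach_nd (k : ℕ) : ∀ i, i < 2 ^ r → 2 ^ r ≤ i + k → (GG r s).Reachable (nd i) hub := by
  induction k with
  | zero =>
    intro i hi h
    omega
  | succ k ih =>
    intro i hi h
    have h1 : 2 * i + 1 < 2 ^ (r + 1) := by
      rw [pow_succ]
      omega
    have h2 := adj_tree (s := s) (j := 2 * i + 1) (by omega) h1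
    rw [show (2 * i + 1) / 2 = i by omega] at h2
    refine h2.reachable.trans ?_
    unfold tr
    split_ifs with h3
    · exact ih _ h3 (by omega)
    · refine (adj_hub ?_).symm.reachable
      have := tr_pos_le (s := s) h1 (not_lt.1 h3)
      have h0 : 0 < 2 ^ s := by positivity
      omega

theorem connected_GG : (GG r s).Connected := by
  haveI : Nonempty (Vt r s) := ⟨hub⟩
  have h : ∀ v : Vt r s, (GG r s).Reachable v hub := by
    intro v
    rcases vt_cases v with rfl | ⟨i, hi, rfl⟩ | ⟨u, hu, rfl⟩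
    · exact Reachable.refl _
    · exact reach_nd (2 ^ r) i hi (by omega)
    · exact (adj_hub hu).symm.reachable
  exact ⟨fun v w => (h v).trans (h w).symm⟩

/-- A height function which changes by at most one along edges. -/
def lev : Vt r s → ℕ
  | hub => r + 2
  | node i => Nat.size i.val
  | pol _ => r + 1

theorem lev_nd {i : ℕ} (hi : i < 2 ^ r) : lev (nd i : Vt r s) = Nat.size i := by
  unfold nd lev
  simp [Fin.ofNat, Nat.mod_eq_of_lt hi]

theorem lev_pl (u : ℕ) : lev (pl u : Vt r s) = r + 1 := rfl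

theorem size_half {j : ℕ} (h : 1 ≤ j) : Nat.size j = Nat.size (j / 2) + 1 := by
  have h1 : j ≠ 0 := by omega
  have h2 : j = Nat.bit (j.bodd) j.div2 := (Nat.bit_bodd_div2 j).symm
  rw [← Nat.div2_val]
  conv_lhs => rw [h2]
  rw [Nat.size_bit (by rw [← h2]; exact h1)]

theorem lev_tr {j : ℕ} (h1 : 1 ≤ j) (h : j < 2 ^ (r + 1)) : lev (tr j : Vt r s) = Nat.size j := by
  unfold tr
  split_ifs with h2
  · exact lev_nd h2
  · rw [lev_pl]
    apply le_antisymm
    · rw [Nat.succ_le_iff]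
      exact Nat.lt_size.2 (not_lt.1 h2)
    · exact Nat.size_le.2 h

theorem lev_adj {a b : Vt r s} (h : (GG r s).Adj a b) : lev b ≤ lev a + 1 := by
  have key : ∀ l, Vd r s l → lev (e1 l : Vt r s) ≤ lev (e2 l : Vt r s) ∧
      lev (e2 l : Vt r s) ≤ lev (e1 l : Vt r s) + 1 ∨
      lev (e2 l : Vt r s) ≤ lev (e1 l : Vt r s) ∧
      lev (e1 l : Vt r s) ≤ lev (e2 l : Vt r s) + 1 := by
    intro l hl
    cases l with
    | hubE v =>
      right
      exact ⟨by show r + 1 ≤ r + 2; omega, by show r + 2 ≤ r + 1 + 1; omega⟩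
    | polE i x =>
      left
      exact ⟨le_refl _, by show r + 1 ≤ r + 1 + 1; omega⟩
    | treeE j =>
      left
      obtain ⟨h1, h2⟩ := hl
      have e3 : lev (e1 (treeE j) : Vt r s) = Nat.size (j / 2) := lev_nd (half_lt h2)
      have e4 : lev (e2 (treeE j) : Vt r s) = Nat.size j := lev_tr h1 h2
      rw [e3, e4, size_half h1]
      omega
  obtain ⟨l, h1, _, h3⟩ := h
  have h4 := key l h1
  rcases h3 with ⟨rfl, rfl⟩ | ⟨rfl, rfl⟩ <;> omega

theorem lev_walk {a b : Vt r s} (p : (GG r s).Walk a b) : lev b ≤ lev a + p.length := by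
  induction p with
  | nil => simp
  | cons h p ih =>
    have := lev_adj h
    rw [Walk.length_cons]
    omega

theorem diam_ge : r ≤ (GG r s).diam := by
  have h1 : r + 2 ≤ (GG r s).dist (nd 0) hub := by
    obtain ⟨p, hp⟩ := connected_GG.exists_walk_length_eq_dist (nd 0 : Vt r s) hub
    rw [← hp]
    have h2 := lev_walk p
    rw [lev_nd (by positivity)] at h2
    simp only [Nat.size_zero] at h2
    have h3 : lev (hub : Vt r s) = r + 2 := rfl
    omega
  have h2 : (GG r s).dist (nd 0) hub ≤ (GG r s).diam := by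
    apply SimpleGraph.dist_le_diam
    haveI : Nonempty (Vt r s) := ⟨hub⟩
    exact SimpleGraph.connected_iff_ediam_ne_top.1 connected_GG
  omega

end Pool.Agent.K3h79.PP
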