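import Mathlib
import Pool.Agent.K3h79.PP.Graph

/-! The graphs are path-pairable. -/

set_option autoImplicit false

namespace Pool.Agent.K3h79.PP

open SimpleGraph Vt Lb

variable {r s : ℕ}

/-- Who uses which edge. -/
def Own (B : ℕ) (u w : ℕ → ℕ) (o : Vt r s) : Lb → Prop
  | hubE v => (∃ k, k < 2 ^ r ∧ v = u k ∧ o = nd k) ∨ ((∀ k, k < 2 ^ r → v ≠ u k) ∧ o = pl v)
  | polE 0 x =>
      (∃ k, k < 2 ^ r ∧ x / 2 ^ B = u k / 2 ^ B ∧
        ((x < u k ∧ o = pl (u k)) ∨ (u k ≤ x ∧ o = nd k))) ∨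
      (∃ k, k < 2 ^ r ∧ x / 2 ^ B = w k / 2 ^ B ∧ x / 2 ^ B ≠ u k / 2 ^ B ∧ o = pl (w k))
  | polE (i + 1) _ => ∃ k, k < 2 ^ r ∧
      ((i = 3 * k ∧ o = nd k) ∨ (i = 3 * k + 1 ∧ o = pl (u k)) ∨ (i = 3 * k + 2 ∧ o = pl (w k)))
  | treeE j => o = nd (ordCompl[2] j / 2)

theorem Own_unique {B : ℕ} {u w : ℕ → ℕ}
    (h1 : ∀ k l, k < 2 ^ r → l < 2 ^ r → k ≠ l → u k / 2 ^ B ≠ u l / 2 ^ B)
    (h2 : ∀ k l, k < 2 ^ r → l < 2 ^ r → k ≠ l → u k / 2 ^ B ≠ w l / 2 ^ B)
    (h3 : ∀ k l, k < 2 ^ r → l < 2 ^ r → k ≠ l → w k / 2 ^ B ≠ w l / 2 ^ B)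
    {o o' : Vt r s} {l : Lb} (h : Own B u w o l) (h' : Own B u w o' l) : o = o' := by
  cases l with
  | hubE v =>
    rcases h with ⟨k, hk, rfl, rfl⟩ | ⟨hk, rfl⟩ <;> rcases h' with ⟨k', hk', h5, rfl⟩ | ⟨hk', rfl⟩
    · by_contra hne
      exact h1 k k' hk hk' (fun e => hne (by rw [e])) (by rw [h5])
    · exact absurd rfl (hk' k hk)
    · exact absurd h5 (hk k' hk')
    · rfl
  | treeE j => exact Eq.trans h (Eq.symm h')
  | polE i x =>
    cases i with
    | succ i =>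
      obtain ⟨k, hk, h⟩ := h
      obtain ⟨k', hk', h'⟩ := h'
      rcases h with ⟨h4, rfl⟩ | ⟨h4, rfl⟩ | ⟨h4, rfl⟩ <;>
        rcases h' with ⟨h5, rfl⟩ | ⟨h5, rfl⟩ | ⟨h5, rfl⟩ <;>
        first
          | (exfalso; omega)
          | (obtain rfl : k = k' := by omega
             rfl)
    | zero =>
      rcases h with ⟨k, hk, h4, h5⟩ | ⟨k, hk, h4, h5, rfl⟩ <;>
        rcases h' with ⟨k', hk', h4', h5'⟩ | ⟨k', hk', h4', h5', rfl⟩
      · obtain rfl : k = k' := by
          by_contra hne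
          exact h1 k k' hk hk' hne (h4.symm.trans h4')
        rcases h5 with ⟨h6, rfl⟩ | ⟨h6, rfl⟩ <;> rcases h5' with ⟨h7, rfl⟩ | ⟨h7, rfl⟩ <;>
          first | rfl | (exfalso; omega)
      · obtain rfl : k = k' := by
          by_contra hne
          exact h2 k k' hk hk' hne (h4.symm.trans h4')
        exact absurd h4 h5'
      · obtain rfl : k = k' := by
          by_contra hne
          exact h2 k' k hk' hk (Ne.symm hne) (h4'.symm.trans h4)
        exact absurd h4' h5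
      · obtain rfl : k = k' := by
          by_contra hne
          exact h3 k k' hk hk' hne (h4.symm.trans h4')
        rfl

theorem reach_steps {V : Type*} (H : SimpleGraph V) (f : ℕ → V) {a b : ℕ} (hab : a ≤ b)
    (h : ∀ x, a ≤ x → x < b → H.Adj (f x) (f (x + 1))) : H.Reachable (f a) (f b) := by
  induction b, hab using Nat.le_induction with
  | base => exact Reachable.refl _
  | succ b hab ih =>
    exact (ih fun x h1 h2 => h x h1 (by omega)).trans (h b hab (by omega)).reachable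

/-- Moving along a track. -/
theorem reach_track {L : Lb → Prop} {i : ℕ} (hi : i ≤ s) (hL : ∀ x, L (polE i x)) {a : ℕ}
    (ha : 2 ^ i ∣ a) (haN : a ≤ 2 ^ (r + s)) :
    (gr L : SimpleGraph (Vt r s)).Reachable (pl 0) (pl a) := by
  obtain ⟨m, rfl⟩ := ha
  have h := reach_steps (gr L : SimpleGraph (Vt r s)) (fun x => pl (2 ^ i * x)) (Nat.zero_le m)
    (fun x _ hx => by
      have h1 : 2 ^ i * x + 2 ^ i ≤ 2 ^ (r + s) := by
        refine le_trans ?_ haN
        calc 2 ^ i * x + 2 ^ i = 2 ^ i * (x + 1) := by ring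
          _ ≤ 2 ^ i * m := Nat.mul_le_mul_left _ hx
      have h2 := adj_of (r := r) (s := s) (L := L) (l := polE i (2 ^ i * x))
        ⟨hi, Dvd.intro _ rfl, h1⟩ (hL _)
      show (gr L : SimpleGraph (Vt r s)).Adj (pl (2 ^ i * x)) (pl (2 ^ i * (x + 1)))
      rw [show 2 ^ i * (x + 1) = 2 ^ i * x + 2 ^ i by ring]
      exact h2)
  simpa using h

/-- Moving along the finest edges. -/
theorem reach_fine {L : Lb → Prop} {a b : ℕ} (hab : a ≤ b) (hb : b ≤ 2 ^ (r + s))
    (hL : ∀ x, a ≤ x → x < b → L (polE 0 x)) :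
    (gr L : SimpleGraph (Vt r s)).Reachable (pl a) (pl b) :=
  reach_steps _ (fun x => pl x) hab fun x h1 h2 => by
    have h3 := adj_of (r := r) (s := s) (L := L) (l := polE 0 x)
      ⟨Nat.zero_le _, by simp, by simp; omega⟩ (hL x h1 h2)
    simpa [e1, e2] using h3

theorem ordCompl_two (t i : ℕ) : ordCompl[2] (2 ^ t * (2 * i + 1)) / 2 = i := by
  have h1 : ordCompl[2] (2 ^ t * (2 * i + 1)) = 2 * i + 1 := by
    rw [Nat.ordCompl_mul]
    have h2 : ordCompl[2] (2 ^ t) = 1 := by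
      rw [Nat.Prime.factorization_pow Nat.prime_two]
      simp
    have h3 : ordCompl[2] (2 * i + 1) = 2 * i + 1 := by
      rw [Nat.factorization_eq_zero_of_not_dvd (by omega : ¬ 2 ∣ 2 * i + 1)]
      simp
    rw [h2, h3, one_mul]
  rw [h1]
  omega

/-- From a node down to a point. -/
theorem reach_tree {L : Lb → Prop} {k : ℕ} (hk : k < 2 ^ r)
    (hL : ∀ t, L (treeE (2 ^ t * (2 * k + 1)))) :
    ∃ p, 2 ^ s ∣ p ∧ p ≤ 2 ^ (r + s) ∧
      (gr L : SimpleGraph (Vt r s)).Reachable (nd k) (pl p) := by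
  -- the last node on the way
  have hex : ∃ t, 2 ^ r ≤ 2 ^ t * (2 * k + 1) := ⟨r, Nat.le_mul_of_pos_right _ (by omega)⟩
  classical
  set t := Nat.find hex with ht
  have h1 : 2 ^ r ≤ 2 ^ t * (2 * k + 1) := Nat.find_spec hex
  have h2 : ∀ t', t' < t → 2 ^ t' * (2 * k + 1) < 2 ^ r := fun t' h => not_le.1 (Nat.find_min hex h)
  have h3 : 2 ^ t * (2 * k + 1) < 2 ^ (r + 1) := by
    rcases Nat.eq_zero_or_pos t with h0 | h0
    · rw [h0, pow_succ]
      omega
    · have h4 := h2 (t - 1) (by omega)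
      have h5 : 2 ^ t = 2 ^ (t - 1) * 2 := by
        rw [← pow_succ]
        congr 1
        omega
      rw [h5, pow_succ]
      nlinarith
  have hr : ∀ t', t' ≤ t →
      (gr L : SimpleGraph (Vt r s)).Reachable (nd k) (tr (2 ^ t' * (2 * k + 1))) := by
    intro t' ht'
    induction t' with
    | zero =>
      have h5 : 1 ≤ 2 ^ 0 * (2 * k + 1) := by omega
      have h6 : 2 ^ 0 * (2 * k + 1) < 2 ^ (r + 1) := by
        rw [pow_succ]
        omega
      have h4 := adj_of (r := r) (s := s) (L := L) (l := treeE (2 ^ 0 * (2 * k + 1))) ⟨h5, h6⟩ (hL 0)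
      have h7 : (e1 (treeE (2 ^ 0 * (2 * k + 1))) : Vt r s) = nd k := by
        show nd (2 ^ 0 * (2 * k + 1) / 2) = nd k
        congr 1
        omega
      rw [h7] at h4
      exact h4.reachable
    | succ t' ih =>
      have h4 := ih (by omega)
      refine h4.trans ?_
      have h5 : 1 ≤ 2 ^ (t' + 1) * (2 * k + 1) := Nat.mul_pos (by positivity) (by omega)
      have h6 : 2 ^ (t' + 1) * (2 * k + 1) < 2 ^ (r + 1) :=
        lt_of_le_of_lt (Nat.mul_le_mul_right _ (Nat.pow_le_pow_right (by norm_num) ht')) h3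
      have h7 := adj_of (r := r) (s := s) (L := L) (l := treeE (2 ^ (t' + 1) * (2 * k + 1)))
        ⟨h5, h6⟩ (hL _)
      have h8 : (e1 (treeE (2 ^ (t' + 1) * (2 * k + 1))) : Vt r s) =
          tr (2 ^ t' * (2 * k + 1)) := by
        unfold tr
        rw [if_pos (h2 t' (by omega))]
        show nd (2 ^ (t' + 1) * (2 * k + 1) / 2) = nd (2 ^ t' * (2 * k + 1))
        congr 1
        rw [show 2 ^ (t' + 1) * (2 * k + 1) = 2 * (2 ^ t' * (2 * k + 1)) by ring]
        exact Nat.mul_div_cancel_left _ two_pos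
      rw [h8] at h7
      exact h7.reachable
  refine ⟨(2 ^ t * (2 * k + 1) - 2 ^ r) * 2 ^ s, Dvd.intro_left _ rfl, ?_, ?_⟩
  · exact le_trans (Nat.le_add_right _ _) (tr_pos_le (s := s) h3 h1)
  · have h4 := hr t le_rfl
    unfold tr at h4
    rwa [if_neg (not_lt.2 h1)] at h4

/-- The data of the chosen pairs suffices. -/
theorem pair_of_data {B : ℕ} (hB : 3 * 2 ^ r ≤ B) (hBs : B ≤ s) {f : Vt r s → Vt r s}
    (hff : ∀ v, f (f v) = v) {u w : ℕ → ℕ}
    (hu : ∀ k, k < 2 ^ r → u k < 2 ^ (r + s)) (hwu : ∀ k, k < 2 ^ r → w k < u k)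
    (hf : ∀ k, k < 2 ^ r → f (pl (u k)) = pl (w k))
    (h1 : ∀ k l, k < 2 ^ r → l < 2 ^ r → k ≠ l → u k / 2 ^ B ≠ u l / 2 ^ B)
    (h2 : ∀ k l, k < 2 ^ r → l < 2 ^ r → k ≠ l → u k / 2 ^ B ≠ w l / 2 ^ B)
    (h3 : ∀ k l, k < 2 ^ r → l < 2 ^ r → k ≠ l → w k / 2 ^ B ≠ w l / 2 ^ B) :
    ∃ H : Vt r s → SimpleGraph (Vt r s), (∀ o, H o ≤ GG r s) ∧
        (∀ o o' a b, (H o).Adj a b → (H o').Adj a b → o = o') ∧
        ∀ v, ∃ m, (H v).Reachable v m ∧ (H (f v)).Reachable (f v) m := by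
  refine ⟨fun o => gr (Own B u w o), fun o => gr_le _, ?_, ?_⟩
  · intro o o' a b h h'
    obtain ⟨l, -, h4, h5⟩ := gr_common h h'
    exact Own_unique h1 h2 h3 h4 h5
  have hBpos : 0 < 2 ^ B := by positivity
  -- the ends of the blocks
  have hblk : ∀ x, x < 2 ^ (r + s) → (x / 2 ^ B + 1) * 2 ^ B ≤ 2 ^ (r + s) := by
    intro x hx
    have h4 : 2 ^ (r + s) = 2 ^ (r + s - B) * 2 ^ B := by
      rw [← pow_add]
      congr 1
      omega
    rw [h4] at hx ⊢
    apply Nat.mul_le_mul_right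
    exact Nat.div_lt_of_lt_mul (by rw [mul_comm]; exact hx)
  have hdm : ∀ x, x / 2 ^ B * 2 ^ B ≤ x := fun x => Nat.div_mul_le_self _ _
  have hdm' : ∀ x, x < (x / 2 ^ B + 1) * 2 ^ B := fun x => by
    rw [mul_comm]
    exact Nat.lt_mul_div_succ x hBpos
  -- the nodes
  have hnode : ∀ k, k < 2 ^ r →
      (gr (Own B u w (nd k : Vt r s)) : SimpleGraph (Vt r s)).Reachable (nd k) hub := by
    intro k hk
    obtain ⟨p, hp1, hp2, hp3⟩ := reach_tree (r := r) (s := s) (L := Own B u w (nd k : Vt r s)) hk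
      (fun t => by
        show (nd k : Vt r s) = nd (ordCompl[2] (2 ^ t * (2 * k + 1)) / 2)
        rw [ordCompl_two])
    have htr : ∀ x, Own B u w (nd k : Vt r s) (polE (3 * k + 1) x) := fun x =>
      ⟨k, hk, Or.inl ⟨rfl, rfl⟩⟩
    have hks : 3 * k + 1 ≤ B := by omega
    have h4 := reach_track (r := r) (s := s) (by omega) htr
      ((Nat.pow_dvd_pow 2 (by omega : 3 * k + 1 ≤ s)).trans hp1) hp2
    have h5 := reach_track (r := r) (s := s) (by omega) htr
      ((Nat.pow_dvd_pow 2 hks).trans (Dvd.intro_left (u k / 2 ^ B + 1) rfl)) (hblk _ (hu k hk))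
    have h6 := reach_fine (r := r) (s := s) (L := Own B u w (nd k : Vt r s)) (hdm' (u k)).le
      (hblk _ (hu k hk)) (fun x hx1 hx2 => by
        refine Or.inl ⟨k, hk, ?_, Or.inr ⟨hx1, rfl⟩⟩
        apply Nat.div_eq_of_lt_le
        · exact (hdm _).trans hx1
        · exact hx2)
    have h7 := adj_of (r := r) (s := s) (L := Own B u w (nd k : Vt r s)) (l := hubE (u k))
      (hu k hk).le (Or.inl ⟨k, hk, rfl, rfl⟩)
    exact hp3.trans (h4.symm.trans (h5.trans (h6.symm.trans h7.symm.reachable)))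
  -- the chosen pairs
  have hpair : ∀ k, k < 2 ^ r → ∃ m,
      (gr (Own B u w (pl (u k) : Vt r s)) : SimpleGraph (Vt r s)).Reachable (pl (u k)) m ∧
      (gr (Own B u w (pl (w k) : Vt r s)) : SimpleGraph (Vt r s)).Reachable (pl (w k)) m := by
    intro k hk
    by_cases hc : u k / 2 ^ B = w k / 2 ^ B
    · refine ⟨pl (w k), ?_, Reachable.refl _⟩
      refine (reach_fine (hwu k hk).le (hu k hk).le fun x hx1 hx2 => ?_).symm
      refine Or.inl ⟨k, hk, ?_, Or.inl ⟨hx2, rfl⟩⟩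
      apply le_antisymm
      · exact Nat.div_le_div_right hx2.le
      · rw [hc]
        exact Nat.div_le_div_right hx1
    · refine ⟨pl 0, ?_, ?_⟩
      · have h4 := reach_fine (r := r) (s := s) (L := Own B u w (pl (u k) : Vt r s)) (hdm (u k))
          (hu k hk).le (fun x hx1 hx2 => by
            refine Or.inl ⟨k, hk, ?_, Or.inl ⟨hx2, rfl⟩⟩
            apply Nat.div_eq_of_lt_le hx1
            exact hx2.trans (hdm' _))
        have h5 := reach_track (r := r) (s := s) (L := Own B u w (pl (u k) : Vt r s))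
          (i := 3 * k + 2) (by omega) (fun x => ⟨k, hk, Or.inr (Or.inl ⟨rfl, rfl⟩)⟩)
          ((Nat.pow_dvd_pow 2 (by omega : 3 * k + 2 ≤ B)).trans (Dvd.intro_left (u k / 2 ^ B) rfl))
          ((hdm _).trans (hu k hk).le)
        exact h4.symm.trans h5.symm
      · have hw : w k < 2 ^ (r + s) := (hwu k hk).trans (hu k hk)
        have h4 := reach_fine (r := r) (s := s) (L := Own B u w (pl (w k) : Vt r s)) (hdm (w k))
          hw.le (fun x hx1 hx2 => by
            have h6 : x / 2 ^ B = w k / 2 ^ B := by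
              apply Nat.div_eq_of_lt_le hx1
              exact hx2.trans (hdm' _)
            refine Or.inr ⟨k, hk, h6, ?_, rfl⟩
            rw [h6]
            exact fun e => hc e.symm)
        have h5 := reach_track (r := r) (s := s) (L := Own B u w (pl (w k) : Vt r s))
          (i := 3 * k + 3) (by omega) (fun x => ⟨k, hk, Or.inr (Or.inr ⟨rfl, rfl⟩)⟩)
          ((Nat.pow_dvd_pow 2 (by omega : 3 * k + 3 ≤ B)).trans (Dvd.intro_left (w k / 2 ^ B) rfl))
          ((hdm _).trans hw.le)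
        exact h4.symm.trans h5.symm
  -- everybody else
  have hgood : ∀ v : Vt r s, (∀ k, k < 2 ^ r → v ≠ pl (u k)) →
      (gr (Own B u w v) : SimpleGraph (Vt r s)).Reachable v hub := by
    intro v hv
    rcases vt_cases v with rfl | ⟨i, hi, rfl⟩ | ⟨x, hx, rfl⟩
    · exact Reachable.refl _
    · exact hnode i hi
    · exact (adj_of (r := r) (s := s) (L := Own B u w (pl x : Vt r s)) (l := hubE x) hx
        (Or.inr ⟨fun k hk e => hv k hk (by rw [e]), rfl⟩)).symm.reachable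
  intro v
  by_cases hv : ∃ k, k < 2 ^ r ∧ v = pl (u k)
  · obtain ⟨k, hk, rfl⟩ := hv
    rw [hf k hk]
    exact hpair k hk
  by_cases hfv : ∃ k, k < 2 ^ r ∧ f v = pl (u k)
  · obtain ⟨k, hk, h4⟩ := hfv
    have h5 : v = pl (w k) := by rw [← hf k hk, ← h4, hff]
    obtain ⟨m, h6, h7⟩ := hpair k hk
    refine ⟨m, ?_, ?_⟩
    · rw [h5]
      exact h7
    · rw [h4]
      exact h6
  · exact ⟨hub, hgood v fun k hk e => hv ⟨k, hk, e⟩, hgood (f v) fun k hk e => hfv ⟨k, hk, e⟩⟩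

end Pool.Agent.K3h79.PP
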