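import Mathlib
import Pool.Agent.K3h79.PP.Pair

/-! The choice of the pairs which do not use the hub, and path-pairability. -/

set_option autoImplicit false

namespace Pool.Agent.K3h79.PP

open SimpleGraph Vt Lb

variable {r s : ℕ}

/-- The block of a vertex. -/
def blk (B : ℕ) : Vt r s → Vt r s ⊕ ℕ
  | hub => Sum.inl hub
  | node i => Sum.inl (node i)
  | pol x => Sum.inr (x.val / 2 ^ B)

theorem blk_pl {B x : ℕ} (hx : x ≤ 2 ^ (r + s)) : blk B (pl x : Vt r s) = Sum.inr (x / 2 ^ B) := by
  unfold pl blk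
  simp [Fin.ofNat, Nat.mod_eq_of_lt (Nat.lt_succ_of_le hx)]

open Classical in
theorem card_blk (B : ℕ) (c : Vt r s ⊕ ℕ) :
    (Finset.univ.filter fun v : Vt r s => blk B v = c).card ≤ 2 ^ B := by
  have hpos : 0 < 2 ^ B := by positivity
  rcases c with v | n
  · calc _ ≤ ({v} : Finset (Vt r s)).card := by
          apply Finset.card_le_card
          intro y hy
          rw [Finset.mem_filter] at hy
          rw [Finset.mem_singleton]
          have h1 := hy.2
          cases y <;> simp only [blk, Sum.inl.injEq, reduceCtorEq] at h1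
          · exact h1
          · exact h1
      _ = 1 := Finset.card_singleton _
      _ ≤ 2 ^ B := hpos
  · calc _ ≤ ((Finset.Ico (n * 2 ^ B) ((n + 1) * 2 ^ B)).image (pl : ℕ → Vt r s)).card := by
          apply Finset.card_le_card
          intro y hy
          rw [Finset.mem_filter] at hy
          rw [Finset.mem_image]
          have h1 := hy.2
          cases y with
          | hub => simp [blk] at h1
          | node i => simp [blk] at h1
          | pol x =>
            simp only [blk, Sum.inr.injEq] at h1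
            refine ⟨x.val, ?_, (exists_pl x).symm⟩
            rw [Finset.mem_Ico, ← h1]
            refine ⟨Nat.div_mul_le_self _ _, ?_⟩
            rw [mul_comm]
            exact Nat.lt_mul_div_succ _ hpos
      _ ≤ (Finset.Ico (n * 2 ^ B) ((n + 1) * 2 ^ B)).card := Finset.card_image_le
      _ = 2 ^ B := by
          rw [Nat.card_Ico, add_mul]
          omega

open Classical in
theorem card_blk' (B : ℕ) {f : Vt r s → Vt r s} (hff : ∀ v, f (f v) = v) (c : Vt r s ⊕ ℕ) :
    (Finset.univ.filter fun v : Vt r s => blk B (f v) = c).card ≤ 2 ^ B := by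
  refine le_trans ?_ (card_blk B c)
  apply Finset.card_le_card_of_injOn f
  · intro v hv
    have h1 := (Finset.mem_filter.1 (Finset.mem_coe.1 hv)).2
    exact Finset.mem_coe.2 (Finset.mem_filter.2 ⟨Finset.mem_univ _, h1⟩)
  · intro v _ v' _ h
    rw [← hff v, ← hff v', h]

theorem exists_data {B : ℕ} (hs : s = B + 3) {f : Vt r s → Vt r s}
    (hff : ∀ v, f (f v) = v) (hfn : ∀ v, f v ≠ v) :
    ∃ u w : ℕ → ℕ, (∀ k, k < 2 ^ r → u k < 2 ^ (r + s)) ∧
    (∀ k, k < 2 ^ r → w k < u k) ∧
    (∀ k, k < 2 ^ r → f (pl (u k)) = pl (w k)) ∧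
    (∀ k l, k < 2 ^ r → l < 2 ^ r → k ≠ l → u k / 2 ^ B ≠ u l / 2 ^ B) ∧
    (∀ k l, k < 2 ^ r → l < 2 ^ r → k ≠ l → u k / 2 ^ B ≠ w l / 2 ^ B) ∧
    (∀ k l, k < 2 ^ r → l < 2 ^ r → k ≠ l → w k / 2 ^ B ≠ w l / 2 ^ B) := by
  classical
  set N : Vt r s → Finset (Vt r s) := fun v => Finset.univ.filter fun y =>
    blk B y = blk B v ∨ blk B y = blk B (f v) ∨ blk B (f y) = blk B v ∨
      blk B (f y) = blk B (f v) with hN
  have hNs : ∀ x y, y ∈ N x → x ∈ N y := by
    intro x y h
    simp only [hN, Finset.mem_filter, Finset.mem_univ, true_and] at h ⊢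
    rcases h with h | h | h | h
    · exact Or.inl h.symm
    · exact Or.inr (Or.inr (Or.inl h.symm))
    · exact Or.inr (Or.inl h.symm)
    · exact Or.inr (Or.inr (Or.inr h.symm))
  have hNc : ∀ x, (N x).card ≤ 4 * 2 ^ B := by
    intro x
    simp only [hN, Finset.filter_or]
    refine (Finset.card_union_le _ _).trans ?_
    have h1 := card_blk B (blk B x)
    have h2 := card_blk B (blk B (f x))
    have h3 := card_blk' B hff (blk B x)
    have h4 := card_blk' B hff (blk B (f x))
    have h5 := Finset.card_union_le (Finset.univ.filter fun y => blk B y = blk B (f x))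
      ((Finset.univ.filter fun y => blk B (f y) = blk B x) ∪
        (Finset.univ.filter fun y => blk B (f y) = blk B (f x)))
    have h6 := Finset.card_union_le (Finset.univ.filter fun y => blk B (f y) = blk B x)
        (Finset.univ.filter fun y => blk B (f y) = blk B (f x))
    omega
  set bad : Finset (Vt r s) := Finset.univ.filter fun v =>
    ¬ ∃ x, x < 2 ^ (r + s) ∧ v = pl x with hbad
  have hbadc : bad.card ≤ 2 ^ r + 2 := by
    calc bad.card ≤ (insert hub (insert (pl (2 ^ (r + s)))
          ((Finset.range (2 ^ r)).image nd)) : Finset (Vt r s)).card := by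
          apply Finset.card_le_card
          intro v hv
          have h1 := (Finset.mem_filter.1 hv).2
          rcases vt_cases v with rfl | ⟨i, hi, rfl⟩ | ⟨x, hx, rfl⟩
          · exact Finset.mem_insert_self _ _
          · apply Finset.mem_insert_of_mem
            apply Finset.mem_insert_of_mem
            exact Finset.mem_image_of_mem _ (Finset.mem_range.2 hi)
          · apply Finset.mem_insert_of_mem
            rcases hx.lt_or_eq with hx | rfl
            · exact absurd ⟨x, hx, rfl⟩ h1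
            · exact Finset.mem_insert_self _ _
      _ ≤ 2 ^ r + 2 := by
          have h1 := Finset.card_insert_le (hub : Vt r s) (insert (pl (2 ^ (r + s)))
            ((Finset.range (2 ^ r)).image nd))
          have h2 := Finset.card_insert_le (pl (2 ^ (r + s)) : Vt r s)
            ((Finset.range (2 ^ r)).image nd)
          have h3 : ((Finset.range (2 ^ r)).image (nd : ℕ → Vt r s)).card ≤ 2 ^ r :=
            Finset.card_image_le.trans (by simp)
          omega
  set U : Finset (Vt r s) := Finset.univ.filter fun v =>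
    (∃ x, x < 2 ^ (r + s) ∧ v = pl x) ∧ ∃ y, y < 2 ^ (r + s) ∧ f v = pl y with hU
  have hUc : 4 * 2 ^ B * 2 ^ r ≤ U.card := by
    have h1 : (Finset.univ : Finset (Vt r s)) ⊆ U ∪ (bad ∪ bad.image f) := by
      intro v _
      by_cases hv : ∃ x, x < 2 ^ (r + s) ∧ v = pl x
      · by_cases hfv : ∃ y, y < 2 ^ (r + s) ∧ f v = pl y
        · exact Finset.mem_union_left _ (Finset.mem_filter.2 ⟨Finset.mem_univ _, hv, hfv⟩)
        · apply Finset.mem_union_right
          apply Finset.mem_union_right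
          refine Finset.mem_image.2 ⟨f v, Finset.mem_filter.2 ⟨Finset.mem_univ _, hfv⟩, hff v⟩
      · apply Finset.mem_union_right
        exact Finset.mem_union_left _ (Finset.mem_filter.2 ⟨Finset.mem_univ _, hv⟩)
    have h2 := Finset.card_le_card h1
    rw [Finset.card_univ, card_Vt] at h2
    have h3 := Finset.card_union_le U (bad ∪ bad.image f)
    have h4 := Finset.card_union_le bad (bad.image f)
    have h5 : (bad.image f).card ≤ bad.card := Finset.card_image_le
    have h6 : 2 ^ (r + s) = 8 * (2 ^ B * 2 ^ r) := by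
      rw [hs, show r + (B + 3) = 3 + (B + r) by ring, pow_add, pow_add]
      norm_num
    have h7 : 1 ≤ 2 ^ B * 2 ^ r := Nat.mul_pos (by positivity) (by positivity)
    have h8 : 2 ^ r ≤ 2 ^ B * 2 ^ r := Nat.le_mul_of_pos_left _ (by positivity)
    have h9 : 4 * 2 ^ B * 2 ^ r = 4 * (2 ^ B * 2 ^ r) := by ring
    rw [h9]
    omega
  obtain ⟨g, hg1, hg2⟩ := Pool.Agent.R127.PathPair.exists_indep N hNs (4 * 2 ^ B) (by positivity)
    hNc (2 ^ r) U hUc
  have hgU : ∀ i, (∃ x, x < 2 ^ (r + s) ∧ g i = pl x) ∧ ∃ y, y < 2 ^ (r + s) ∧ f (g i) = pl y :=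
    fun i => (Finset.mem_filter.1 (hg1 i)).2
  choose x hx hgx using fun i => (hgU i).1
  choose y hy hgy using fun i => (hgU i).2
  have hxy : ∀ i, x i ≠ y i := by
    intro i h
    apply hfn (g i)
    rw [hgy, ← h, ← hgx]
  have hfx : ∀ i, f (pl (x i)) = pl (y i) := fun i => by rw [← hgx, hgy]
  have hfy : ∀ i, f (pl (y i)) = pl (x i) := fun i => by rw [← hgy, hff, hgx]
  have hind : ∀ i j, i ≠ j → x j / 2 ^ B ≠ x i / 2 ^ B ∧ x j / 2 ^ B ≠ y i / 2 ^ B ∧
      y j / 2 ^ B ≠ x i / 2 ^ B ∧ y j / 2 ^ B ≠ y i / 2 ^ B := by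
    intro i j hij
    have h1 := hg2 i j hij
    simp only [hN, Finset.mem_filter, Finset.mem_univ, true_and, not_or] at h1
    rw [hgy i, hgy j, hgx i, hgx j, blk_pl (hx i).le, blk_pl (hx j).le, blk_pl (hy i).le,
      blk_pl (hy j).le] at h1
    simpa only [Sum.inr.injEq, ne_eq] using h1
  set ex : ℕ → ℕ := fun k => if h : k < 2 ^ r then x ⟨k, h⟩ else 0 with hex
  set ey : ℕ → ℕ := fun k => if h : k < 2 ^ r then y ⟨k, h⟩ else 0 with hey
  have ex' : ∀ k (h : k < 2 ^ r), ex k = x ⟨k, h⟩ := fun k h => by simp [hex, h]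
  have ey' : ∀ k (h : k < 2 ^ r), ey k = y ⟨k, h⟩ := fun k h => by simp [hey, h]
  have hind' : ∀ k l, k < 2 ^ r → l < 2 ^ r → k ≠ l → ex k / 2 ^ B ≠ ex l / 2 ^ B ∧
      ex k / 2 ^ B ≠ ey l / 2 ^ B ∧ ey k / 2 ^ B ≠ ex l / 2 ^ B ∧ ey k / 2 ^ B ≠ ey l / 2 ^ B := by
    intro k l hk hl hkl
    rw [ex' k hk, ex' l hl, ey' k hk, ey' l hl]
    exact hind ⟨l, hl⟩ ⟨k, hk⟩ (fun e => hkl (Fin.mk.inj e).symm)
  refine ⟨fun k => max (ex k) (ey k), fun k => min (ex k) (ey k), ?_, ?_, ?_, ?_, ?_, ?_⟩
  · intro k hk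
    show max (ex k) (ey k) < _
    rw [ex' k hk, ey' k hk]
    exact max_lt (hx _) (hy _)
  · intro k hk
    show min (ex k) (ey k) < max (ex k) (ey k)
    have := hxy ⟨k, hk⟩
    rw [ex' k hk, ey' k hk]
    omega
  · intro k hk
    show f (pl (max (ex k) (ey k))) = pl (min (ex k) (ey k))
    rw [ex' k hk, ey' k hk]
    rcases le_total (x ⟨k, hk⟩) (y ⟨k, hk⟩) with h | h
    · rw [max_eq_right h, min_eq_left h]
      exact hfy _
    · rw [max_eq_left h, min_eq_right h]
      exact hfx _
  · intro k l hk hl hkl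
    obtain ⟨h1, h2, h3, h4⟩ := hind' k l hk hl hkl
    show max (ex k) (ey k) / 2 ^ B ≠ max (ex l) (ey l) / 2 ^ B
    rcases max_choice (ex k) (ey k) with h | h <;> rcases max_choice (ex l) (ey l) with h' | h' <;>
      rw [h, h'] <;> assumption
  · intro k l hk hl hkl
    obtain ⟨h1, h2, h3, h4⟩ := hind' k l hk hl hkl
    show max (ex k) (ey k) / 2 ^ B ≠ min (ex l) (ey l) / 2 ^ B
    rcases max_choice (ex k) (ey k) with h | h <;> rcases min_choice (ex l) (ey l) with h' | h' <;>
      rw [h, h'] <;> assumption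
  · intro k l hk hl hkl
    obtain ⟨h1, h2, h3, h4⟩ := hind' k l hk hl hkl
    show min (ex k) (ey k) / 2 ^ B ≠ min (ex l) (ey l) / 2 ^ B
    rcases min_choice (ex k) (ey k) with h | h <;> rcases min_choice (ex l) (ey l) with h' | h' <;>
      rw [h, h'] <;> assumption

/-- The graphs are path-pairable. -/
theorem pathPairable_GG (r : ℕ) :
    Pool.Agent.R127.PathPair.PathPairable (GG r (3 * 2 ^ r + 3)) := by
  apply Pool.Agent.R127.PathPair.pathPairable_of
  intro f hff hfn
  obtain ⟨u, w, h1, h2, h3, h4, h5, h6⟩ := exists_data rfl hff hfn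
  exact pair_of_data le_rfl (by omega) hff h1 h2 h3 h4 h5 h6

end Pool.Agent.K3h79.PP
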