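import Mathlib
import Pool.Agent.K3h79.PP.Sel

/-! The graphs have a straight-line drawing in the plane without crossings. -/

set_option autoImplicit false

namespace Pool.Agent.K3h79.PP

open SimpleGraph Vt Lb Set

variable {r s : ℕ}

/-- A graph is planar: it has a drawing in the plane in which the vertices are distinct points, the
edges are straight segments, no vertex lies on an edge of which it is not an end, and two edges
meet at most in a common end. -/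
def Planar {V : Type} (G : SimpleGraph V) : Prop :=
  ∃ f : V → ℝ × ℝ, Function.Injective f ∧
    (∀ a b v, G.Adj a b → f v ∈ segment ℝ (f a) (f b) → v = a ∨ v = b) ∧
    ∀ a b c d, G.Adj a b → G.Adj c d → s(a, b) ≠ s(c, d) →
      ∀ p ∈ segment ℝ (f a) (f b) ∩ segment ℝ (f c) (f d),
        ∃ v, p = f v ∧ (v = a ∨ v = b) ∧ (v = c ∨ v = d)

/-- `N = 2 ^ (r + s)` -/
noncomputable def NN (r s : ℕ) : ℝ := 2 ^ (r + s)

/-- abscissa of a node -/
noncomputable def X (r s : ℕ) (i : ℕ) : ℝ := (2 * i - 2 ^ r) * 2 ^ s + 1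

/-- ordinate of a node -/
noncomputable def Y (r s : ℕ) (i : ℕ) : ℝ := NN r s ^ 2 + 1 + (r - Nat.size i)

/-- The drawing. -/
noncomputable def F : Vt r s → ℝ × ℝ
  | hub => (0, -(NN r s ^ 2 + 1))
  | node i => (X r s i.val, Y r s i.val)
  | pol u => (u.val, (u.val : ℝ) ^ 2)

theorem F_nd {i : ℕ} (hi : i < 2 ^ r) : F (nd i : Vt r s) = (X r s i, Y r s i) := by
  unfold nd F
  simp [Fin.ofNat, Nat.mod_eq_of_lt hi]

theorem F_pl {u : ℕ} (hu : u ≤ 2 ^ (r + s)) : F (pl u : Vt r s) = ((u : ℝ), (u : ℝ) ^ 2) := by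
  unfold pl F
  simp [Fin.ofNat, Nat.mod_eq_of_lt (Nat.lt_succ_of_le hu)]

theorem le_NN {u : ℕ} (hu : u ≤ 2 ^ (r + s)) : (u : ℝ) ≤ NN r s := by
  unfold NN
  exact_mod_cast hu

theorem sq_le_NN {u : ℕ} (hu : u ≤ 2 ^ (r + s)) : (u : ℝ) ^ 2 ≤ NN r s ^ 2 := by
  have := le_NN hu
  gcongr

theorem NN_eq : NN r s = 2 ^ r * 2 ^ s := by
  unfold NN
  rw [pow_add]

theorem Y_gt {i : ℕ} (hi : i < 2 ^ r) : NN r s ^ 2 + 1 ≤ Y r s i := by
  unfold Y
  have h1 : Nat.size i ≤ r := Nat.size_le.2 hi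
  have h2 : (Nat.size i : ℝ) ≤ r := by exact_mod_cast h1
  linarith

theorem X_abs {i : ℕ} (hi : i < 2 ^ r) : X r s i ^ 2 ≤ NN r s ^ 2 := by
  have h1 : (i : ℝ) + 1 ≤ 2 ^ r := by exact_mod_cast hi
  have h0 : (0:ℝ) ≤ i := Nat.cast_nonneg i
  have h2 : (1:ℝ) ≤ 2 ^ s := one_le_pow₀ (by norm_num)
  apply sq_le_sq'
  · unfold X
    rw [NN_eq]
    nlinarith
  · unfold X
    rw [NN_eq]
    nlinarith

theorem F_inj : Function.Injective (F : Vt r s → ℝ × ℝ) := by
  intro a b h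
  rcases vt_cases a with rfl | ⟨i, hi, rfl⟩ | ⟨u, hu, rfl⟩ <;>
    rcases vt_cases b with rfl | ⟨i', hi', rfl⟩ | ⟨u', hu', rfl⟩
  · rfl
  · rw [F_nd hi'] at h
    have h1 : -(NN r s ^ 2 + 1) = Y r s i' := congrArg Prod.snd h
    have h2 := Y_gt (s := s) hi'
    nlinarith [sq_nonneg (NN r s)]
  · rw [F_pl hu'] at h
    have h1 : -(NN r s ^ 2 + 1) = (u' : ℝ) ^ 2 := congrArg Prod.snd h
    nlinarith [sq_nonneg (NN r s), sq_nonneg (u' : ℝ)]
  · rw [F_nd hi] at h
    have h1 : Y r s i = -(NN r s ^ 2 + 1) := congrArg Prod.snd h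
    have h2 := Y_gt (s := s) hi
    nlinarith [sq_nonneg (NN r s)]
  · rw [F_nd hi, F_nd hi'] at h
    have h1 : X r s i = X r s i' := congrArg Prod.fst h
    unfold X at h1
    have h2 : (0:ℝ) < 2 ^ s := by positivity
    have h3 : (2 * (i:ℝ) - 2 ^ r) * 2 ^ s = (2 * (i':ℝ) - 2 ^ r) * 2 ^ s := by linarith
    have h4 := mul_right_cancel₀ h2.ne' h3
    have h5 : (i : ℝ) = i' := by linarith
    rw [Nat.cast_injective h5]
  · rw [F_nd hi, F_pl hu'] at h
    have h1 : Y r s i = (u' : ℝ) ^ 2 := congrArg Prod.snd h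
    have h2 := Y_gt (s := s) hi
    have h3 := sq_le_NN hu'
    linarith
  · rw [F_pl hu] at h
    have h1 : (u : ℝ) ^ 2 = -(NN r s ^ 2 + 1) := congrArg Prod.snd h
    nlinarith [sq_nonneg (NN r s), sq_nonneg (u : ℝ)]
  · rw [F_nd hi', F_pl hu] at h
    have h1 : (u : ℝ) ^ 2 = Y r s i' := congrArg Prod.snd h
    have h2 := Y_gt (s := s) hi'
    have h3 := sq_le_NN hu
    linarith
  · rw [F_pl hu, F_pl hu'] at h
    have h1 : (u : ℝ) = u' := congrArg Prod.fst h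
    rw [Nat.cast_injective h1]

/-! ### The edges -/

theorem mem_seg {A B p : ℝ × ℝ} (h : p ∈ segment ℝ A B) :
    ∃ t : ℝ, 0 ≤ t ∧ t ≤ 1 ∧ p.1 = (1 - t) * A.1 + t * B.1 ∧ p.2 = (1 - t) * A.2 + t * B.2 := by
  rw [segment_eq_image] at h
  obtain ⟨t, ⟨h0, h1⟩, rfl⟩ := h
  exact ⟨t, h0, h1, by simp, by simp⟩

theorem hub_seg {v : ℕ} (hv : v ≤ 2 ^ (r + s)) {p : ℝ × ℝ}
    (h : p ∈ segment ℝ (F (e1 (hubE v) : Vt r s)) (F (e2 (hubE v) : Vt r s))) :
    ∃ t : ℝ, 0 ≤ t ∧ t ≤ 1 ∧ p.1 = t * v ∧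
      p.2 = -(NN r s ^ 2 + 1) + t * ((v : ℝ) ^ 2 + (NN r s ^ 2 + 1)) := by
  obtain ⟨t, h0, h1, h2, h3⟩ := mem_seg h
  have e3 : F (e1 (hubE v) : Vt r s) = (0, -(NN r s ^ 2 + 1)) := rfl
  have e4 : F (e2 (hubE v) : Vt r s) = ((v : ℝ), (v : ℝ) ^ 2) := F_pl hv
  rw [e3, e4] at h2 h3
  refine ⟨t, h0, h1, by rw [h2]; ring, by rw [h3]; ring⟩

/-- The hub edges are below the parabola. -/
theorem hub_below {v : ℕ} (hv : v ≤ 2 ^ (r + s)) {p : ℝ × ℝ}
    (h : p ∈ segment ℝ (F (e1 (hubE v) : Vt r s)) (F (e2 (hubE v) : Vt r s))) :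
    p.2 ≤ p.1 ^ 2 ∧ (p.2 = p.1 ^ 2 → p = F (pl v : Vt r s)) := by
  obtain ⟨t, h0, h1, h2, h3⟩ := hub_seg hv h
  have hN := sq_le_NN hv
  have e : p.1 ^ 2 - p.2 = (1 - t) * ((NN r s ^ 2 + 1) - t * (v : ℝ) ^ 2) := by
    rw [h2, h3]
    ring
  have h4 : 0 < (NN r s ^ 2 + 1) - t * (v : ℝ) ^ 2 := by
    nlinarith [sq_nonneg (v : ℝ)]
  constructor
  · nlinarith
  · intro h5
    have h6 : (1 - t) * ((NN r s ^ 2 + 1) - t * (v : ℝ) ^ 2) = 0 := by rw [← e, h5]; ring
    have h7 : t = 1 := by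
      rcases mul_eq_zero.1 h6 with h | h
      · linarith
      · exact absurd h h4.ne'
    rw [F_pl hv]
    apply Prod.ext
    · show p.1 = (v : ℝ)
      rw [h2, h7, one_mul]
    · show p.2 = (v : ℝ) ^ 2
      rw [h5, h2, h7, one_mul]

theorem pol_seg {i x : ℕ} (hx : x + 2 ^ i ≤ 2 ^ (r + s)) {p : ℝ × ℝ}
    (h : p ∈ segment ℝ (F (e1 (polE i x) : Vt r s)) (F (e2 (polE i x) : Vt r s))) :
    (x : ℝ) ≤ p.1 ∧ p.1 ≤ ((x + 2 ^ i : ℕ) : ℝ) ∧
      p.2 = ((x : ℝ) + ((x + 2 ^ i : ℕ) : ℝ)) * p.1 - (x : ℝ) * ((x + 2 ^ i : ℕ) : ℝ) := by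
  obtain ⟨t, h0, h1, h2, h3⟩ := mem_seg h
  have e3 : F (e1 (polE i x) : Vt r s) = ((x : ℝ), (x : ℝ) ^ 2) :=
    F_pl (le_trans (Nat.le_add_right _ _) hx)
  have e4 : F (e2 (polE i x) : Vt r s) = (((x + 2 ^ i : ℕ) : ℝ), ((x + 2 ^ i : ℕ) : ℝ) ^ 2) :=
    F_pl hx
  rw [e3, e4] at h2 h3
  have h5 : (x : ℝ) ≤ ((x + 2 ^ i : ℕ) : ℝ) := by
    exact_mod_cast Nat.le_add_right _ _
  refine ⟨by rw [h2]; nlinarith, by rw [h2]; nlinarith, by rw [h2, h3]; ring⟩

/-- The chords are above the parabola. -/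
theorem pol_above {i x : ℕ} (hx : x + 2 ^ i ≤ 2 ^ (r + s)) {p : ℝ × ℝ}
    (h : p ∈ segment ℝ (F (e1 (polE i x) : Vt r s)) (F (e2 (polE i x) : Vt r s))) :
    p.1 ^ 2 ≤ p.2 ∧ (p.2 = p.1 ^ 2 → p = F (pl x : Vt r s) ∨ p = F (pl (x + 2 ^ i) : Vt r s)) := by
  obtain ⟨h1, h2, h3⟩ := pol_seg hx h
  set a : ℝ := (x : ℝ) with ha
  set b : ℝ := ((x + 2 ^ i : ℕ) : ℝ) with hb
  have e : p.2 - p.1 ^ 2 = (p.1 - a) * (b - p.1) := by rw [h3]; ring
  constructor
  · nlinarith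
  · intro h4
    have h5 : (p.1 - a) * (b - p.1) = 0 := by rw [← e, h4]; ring
    rcases mul_eq_zero.1 h5 with h6 | h6
    · left
      have h7 : p.1 = a := by linarith
      rw [F_pl (le_trans (Nat.le_add_right _ _) hx)]
      apply Prod.ext
      · exact h7
      · show p.2 = a ^ 2
        rw [h4, h7]
    · right
      have h7 : p.1 = b := by linarith
      rw [F_pl hx]
      apply Prod.ext
      · exact h7
      · show p.2 = b ^ 2
        rw [h4, h7]

/-- Upper tree edges. -/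
theorem tree_seg {j : ℕ} (hj1 : 1 ≤ j) (hj : j < 2 ^ r) {p : ℝ × ℝ}
    (h : p ∈ segment ℝ (F (e1 (treeE j) : Vt r s)) (F (e2 (treeE j) : Vt r s))) :
    ∃ t : ℝ, 0 ≤ t ∧ t ≤ 1 ∧ p.1 = (1 - t) * X r s (j / 2) + t * X r s j ∧
      p.2 = NN r s ^ 2 + 1 + (r - Nat.size j) + (1 - t) := by
  obtain ⟨t, h0, h1, h2, h3⟩ := mem_seg h
  have e3 : F (e1 (treeE j) : Vt r s) = (X r s (j / 2), Y r s (j / 2)) :=
    F_nd (lt_of_le_of_lt (Nat.div_le_self _ _) hj)
  have e4 : F (e2 (treeE j) : Vt r s) = (X r s j, Y r s j) := by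
    have : (e2 (treeE j) : Vt r s) = nd j := by
      show tr j = nd j
      unfold tr
      rw [if_pos hj]
    rw [this]
    exact F_nd hj
  rw [e3, e4] at h2 h3
  refine ⟨t, h0, h1, h2, ?_⟩
  rw [h3]
  unfold Y
  have h5 : (Nat.size j : ℝ) = Nat.size (j / 2) + 1 := by
    rw [size_half hj1]
    push_cast
    ring
  rw [h5]
  ring

/-- Lowest tree edges. -/
theorem leaf_seg {j : ℕ} (hj1 : 2 ^ r ≤ j) (hj : j < 2 ^ (r + 1)) {p : ℝ × ℝ}
    (h : p ∈ segment ℝ (F (e1 (treeE j) : Vt r s)) (F (e2 (treeE j) : Vt r s))) :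
    ∃ t : ℝ, 0 ≤ t ∧ t ≤ 1 ∧ p.1 = (1 - t) * X r s (j / 2) + t * (((j - 2 ^ r) * 2 ^ s : ℕ) : ℝ) ∧
      p.2 = (1 - t) * (NN r s ^ 2 + 1) + t * (((j - 2 ^ r) * 2 ^ s : ℕ) : ℝ) ^ 2 := by
  obtain ⟨t, h0, h1, h2, h3⟩ := mem_seg h
  have hj0 : 1 ≤ j := le_trans Nat.one_le_two_pow hj1
  have e3 : F (e1 (treeE j) : Vt r s) = (X r s (j / 2), Y r s (j / 2)) :=
    F_nd (half_lt hj)
  have hle : (j - 2 ^ r) * 2 ^ s ≤ 2 ^ (r + s) :=
    le_trans (Nat.le_add_right _ _) (tr_pos_le (s := s) hj hj1)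
  have e4 : F (e2 (treeE j) : Vt r s) = ((((j - 2 ^ r) * 2 ^ s : ℕ) : ℝ),
      (((j - 2 ^ r) * 2 ^ s : ℕ) : ℝ) ^ 2) := by
    have : (e2 (treeE j) : Vt r s) = pl ((j - 2 ^ r) * 2 ^ s) := by
      show tr j = _
      unfold tr
      rw [if_neg (not_lt.2 hj1)]
    rw [this]
    exact F_pl hle
  rw [e3, e4] at h2 h3
  refine ⟨t, h0, h1, h2, ?_⟩
  rw [h3]
  have h5 : Nat.size j = r + 1 := by
    apply le_antisymm
    · exact Nat.size_le.2 hj
    · exact Nat.lt_size.2 hj1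
  have h6 : Nat.size (j / 2) = r := by
    have := size_half hj0
    omega
  unfold Y
  rw [h6]
  ring

/-- The tree edges are above the parabola. -/
theorem tree_above {j : ℕ} (hj1 : 1 ≤ j) (hj : j < 2 ^ (r + 1)) {p : ℝ × ℝ}
    (h : p ∈ segment ℝ (F (e1 (treeE j) : Vt r s)) (F (e2 (treeE j) : Vt r s))) :
    p.1 ^ 2 ≤ p.2 ∧ (p.2 = p.1 ^ 2 → p = F (tr j : Vt r s)) := by
  rcases lt_or_ge j (2 ^ r) with hr | hr
  · obtain ⟨t, h0, h1, h2, h3⟩ := tree_seg hj1 hr h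
    have a1 := X_abs (s := s) (lt_of_le_of_lt (Nat.div_le_self j 2) hr)
    have a2 := X_abs (s := s) hr
    have a3 : (Nat.size j : ℝ) ≤ r := by exact_mod_cast Nat.size_le.2 hr
    have a4 : p.1 ^ 2 ≤ NN r s ^ 2 := by
      rw [h2]
      nlinarith [sq_nonneg (X r s (j / 2) - X r s j), mul_nonneg h0 (sub_nonneg.2 h1)]
    constructor
    · rw [h3]
      linarith
    · intro h4
      rw [h3] at h4
      linarith
  · obtain ⟨t, h0, h1, h2, h3⟩ := leaf_seg hr hj h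
    have a1 := X_abs (s := s) (half_lt hj)
    have hle : (j - 2 ^ r) * 2 ^ s ≤ 2 ^ (r + s) :=
      le_trans (Nat.le_add_right _ _) (tr_pos_le (s := s) hj hr)
    set C : ℝ := (((j - 2 ^ r) * 2 ^ s : ℕ) : ℝ) with hC
    set x := X r s (j / 2) with hx
    have e : p.2 - p.1 ^ 2 = (1 - t) * (NN r s ^ 2 + 1 - x ^ 2) + t * (1 - t) * (x - C) ^ 2 := by
      rw [h2, h3]
      ring
    have h5 : 0 ≤ t * (1 - t) * (x - C) ^ 2 := by
      have : 0 ≤ 1 - t := by linarith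
      positivity
    have h6 : (1 - t) * 1 ≤ (1 - t) * (NN r s ^ 2 + 1 - x ^ 2) := by
      apply mul_le_mul_of_nonneg_left _ (by linarith)
      linarith
    constructor
    · linarith
    · intro h7
      have h8 : t = 1 := by
        have : p.2 - p.1 ^ 2 = 0 := by linarith
        linarith
      have h9 : (tr j : Vt r s) = pl ((j - 2 ^ r) * 2 ^ s) := by
        unfold tr
        rw [if_neg (not_lt.2 hr)]
      rw [h9, F_pl hle]
      rw [h8] at h2 h3
      apply Prod.ext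
      · show p.1 = C
        rw [h2]
        ring
      · show p.2 = C ^ 2
        rw [h3]
        ring

/-! ### Pairs of edges -/

/-- The point `p` is a common end. -/
def Sh (l l' : Lb) (p : ℝ × ℝ) : Prop :=
  ∃ v : Vt r s, p = F v ∧ (v = e1 l ∨ v = e2 l) ∧ (v = e1 l' ∨ v = e2 l')

theorem Sh.symm {l l' : Lb} {p : ℝ × ℝ} (h : Sh (r := r) (s := s) l l' p) :
    Sh (r := r) (s := s) l' l p := by
  obtain ⟨v, h1, h2, h3⟩ := h
  exact ⟨v, h1, h3, h2⟩

theorem sh_hub_hub {v v' : ℕ} (hv : v ≤ 2 ^ (r + s)) (hv' : v' ≤ 2 ^ (r + s)) (hne : v ≠ v')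
    {p : ℝ × ℝ}
    (h : p ∈ segment ℝ (F (e1 (hubE v) : Vt r s)) (F (e2 (hubE v) : Vt r s)))
    (h' : p ∈ segment ℝ (F (e1 (hubE v') : Vt r s)) (F (e2 (hubE v') : Vt r s))) :
    Sh (r := r) (s := s) (hubE v) (hubE v') p := by
  obtain ⟨t, h0, h1, h2, h3⟩ := hub_seg hv h
  obtain ⟨t', h0', h1', h2', h3'⟩ := hub_seg hv' h'
  have hvv : (v : ℝ) ≠ v' := fun e => hne (Nat.cast_injective e)
  have hN := le_NN hv
  have hN' := le_NN hv'
  have hv0 : (0:ℝ) ≤ v := Nat.cast_nonneg v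
  have hv0' : (0:ℝ) ≤ v' := Nat.cast_nonneg v'
  set M : ℝ := NN r s ^ 2 + 1 with hM
  have hlt : (v : ℝ) * v' < M := by
    have : (v : ℝ) * v' ≤ NN r s * NN r s := mul_le_mul hN hN' hv0' (by linarith)
    nlinarith
  have e1 : t * v = t' * v' := by rw [← h2, ← h2']
  have e2 : t * ((v : ℝ) ^ 2 + M) = t' * ((v' : ℝ) ^ 2 + M) := by linarith
  -- then `t (v - v') (M - v v') = 0`
  have e3 : t * ((v : ℝ) - v') * (M - v * v') = 0 := by
    have : t * ((v : ℝ) - v') * (M - v * v') = v' * (t' * ((v' : ℝ) ^ 2 + M) -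
      t * ((v : ℝ) ^ 2 + M)) + (t * v - t' * v') * (v' ^ 2 + M) := by ring
    rw [this, e1, e2]
    ring
  have e4 : t = 0 := by
    rcases mul_eq_zero.1 e3 with h | h
    · rcases mul_eq_zero.1 h with h | h
      · exact h
      · exact absurd (sub_eq_zero.1 h) hvv
    · linarith
  refine ⟨hub, ?_, Or.inl rfl, Or.inl rfl⟩
  apply Prod.ext
  · show p.1 = 0
    rw [h2, e4, zero_mul]
  · show p.2 = -(NN r s ^ 2 + 1)
    rw [h3, e4]
    ring

theorem sh_hub_pol {v i x : ℕ} (hv : v ≤ 2 ^ (r + s)) (hx : x + 2 ^ i ≤ 2 ^ (r + s)) {p : ℝ × ℝ}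
    (h : p ∈ segment ℝ (F (e1 (hubE v) : Vt r s)) (F (e2 (hubE v) : Vt r s)))
    (h' : p ∈ segment ℝ (F (e1 (polE i x) : Vt r s)) (F (e2 (polE i x) : Vt r s))) :
    Sh (r := r) (s := s) (hubE v) (polE i x) p := by
  obtain ⟨h1, h2⟩ := hub_below hv h
  obtain ⟨h3, h4⟩ := pol_above hx h'
  have h5 : p.2 = p.1 ^ 2 := le_antisymm h1 h3
  have h6 := h2 h5
  refine ⟨pl v, h6, Or.inr rfl, ?_⟩
  rcases h4 h5 with h7 | h7
  · left
    exact F_inj (h6.symm.trans h7)
  · right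
    exact F_inj (h6.symm.trans h7)

theorem sh_hub_tree {v j : ℕ} (hv : v ≤ 2 ^ (r + s)) (hj1 : 1 ≤ j) (hj : j < 2 ^ (r + 1))
    {p : ℝ × ℝ}
    (h : p ∈ segment ℝ (F (e1 (hubE v) : Vt r s)) (F (e2 (hubE v) : Vt r s)))
    (h' : p ∈ segment ℝ (F (e1 (treeE j) : Vt r s)) (F (e2 (treeE j) : Vt r s))) :
    Sh (r := r) (s := s) (hubE v) (treeE j) p := by
  obtain ⟨h1, h2⟩ := hub_below hv h
  obtain ⟨h3, h4⟩ := tree_above hj1 hj h'
  have h5 : p.2 = p.1 ^ 2 := le_antisymm h1 h3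
  have h6 := h2 h5
  exact ⟨pl v, h6, Or.inr rfl, Or.inr (F_inj (h6.symm.trans (h4 h5)))⟩

theorem dyadic {i x i' x' : ℕ} (hii : i ≤ i') (hx : 2 ^ i ∣ x) (hx' : 2 ^ i' ∣ x') :
    x + 2 ^ i ≤ x' ∨ x' + 2 ^ i' ≤ x ∨ (x' ≤ x ∧ x + 2 ^ i ≤ x' + 2 ^ i') := by
  obtain ⟨k, hk⟩ := Nat.pow_dvd_pow 2 hii
  obtain ⟨m', rfl⟩ := hx'
  obtain ⟨m, rfl⟩ := hx
  rw [hk]
  have hp : 0 < 2 ^ i := by positivity
  rcases lt_or_ge m (k * m') with h | h
  · left
    calc 2 ^ i * m + 2 ^ i = 2 ^ i * (m + 1) := by ring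
      _ ≤ 2 ^ i * (k * m') := Nat.mul_le_mul_left _ h
      _ = 2 ^ i * k * m' := by ring
  · rcases lt_or_ge m (k * m' + k) with h' | h'
    · right; right
      constructor
      · calc 2 ^ i * k * m' = 2 ^ i * (k * m') := by ring
          _ ≤ 2 ^ i * m := Nat.mul_le_mul_left _ h
      · calc 2 ^ i * m + 2 ^ i = 2 ^ i * (m + 1) := by ring
          _ ≤ 2 ^ i * (k * m' + k) := Nat.mul_le_mul_left _ h'
          _ = _ := by ring
    · right; left
      calc 2 ^ i * k * m' + 2 ^ i * k = 2 ^ i * (k * m' + k) := by ring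
        _ ≤ 2 ^ i * m := Nat.mul_le_mul_left _ h'

/-- Two chords of the parabola, disjoint or nested. -/
theorem chord_chord {a b c d x : ℝ} (h1 : a ≤ x) (h2 : x ≤ b) (h3 : c ≤ a) (h4 : b ≤ d)
    (h : (a + b) * x - a * b = (c + d) * x - c * d) (hne : ¬ (a = c ∧ b = d)) :
    (x = a ∧ x = c) ∨ (x = b ∧ x = d) := by
  have e : (d - x) * (x - c) = (b - x) * (x - a) := by linarith
  by_contra hcon
  push Not at hcon
  obtain ⟨k1, k2⟩ := hcon
  rcases eq_or_lt_of_le h1 with h5 | h5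
  · -- `x = a`
    have h6 : (d - x) * (x - c) = 0 := by rw [e, ← h5]; ring
    rcases mul_eq_zero.1 h6 with h7 | h7
    · exact k2 (by linarith) (by linarith)
    · exact k1 h5.symm (by linarith)
  · rcases eq_or_lt_of_le h2 with h6 | h6
    · have h7 : (d - x) * (x - c) = 0 := by rw [e, h6]; ring
      rcases mul_eq_zero.1 h7 with h8 | h8
      · exact k2 h6 (by linarith)
      · exact k1 (by linarith) (by linarith)
    · apply hne
      have h7 : (b - x) * (x - a) ≤ (b - x) * (x - c) :=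
        mul_le_mul_of_nonneg_left (by linarith) (by linarith)
      have h8 : (b - x) * (x - c) ≤ (d - x) * (x - c) :=
        mul_le_mul_of_nonneg_right (by linarith) (by linarith)
      constructor
      · have h9 : (b - x) * (x - a) = (b - x) * (x - c) := by linarith
        have := mul_left_cancel₀ (by linarith : b - x ≠ 0) h9
        linarith
      · have h9 : (b - x) * (x - c) = (d - x) * (x - c) := by linarith
        have := mul_right_cancel₀ (by linarith : x - c ≠ 0) h9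
        linarith

theorem sh_pol_pol' {i x i' x' : ℕ} (hii : i ≤ i') (hx : 2 ^ i ∣ x) (hx' : 2 ^ i' ∣ x')
    (hN : x + 2 ^ i ≤ 2 ^ (r + s)) (hN' : x' + 2 ^ i' ≤ 2 ^ (r + s))
    (hne : ¬ (i = i' ∧ x = x')) {p : ℝ × ℝ}
    (h : p ∈ segment ℝ (F (e1 (polE i x) : Vt r s)) (F (e2 (polE i x) : Vt r s)))
    (h' : p ∈ segment ℝ (F (e1 (polE i' x') : Vt r s)) (F (e2 (polE i' x') : Vt r s))) :
    Sh (r := r) (s := s) (polE i x) (polE i' x') p := by
  obtain ⟨h1, h2, h3⟩ := pol_seg hN h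
  obtain ⟨h1', h2', h3'⟩ := pol_seg hN' h'
  have hp : ∀ y : ℕ, y ≤ 2 ^ (r + s) → p.1 = y → p.2 = (y:ℝ) ^ 2 → p = F (pl y : Vt r s) := by
    intro y hy h4 h5
    rw [F_pl hy]
    exact Prod.ext h4 h5
  rcases dyadic hii hx hx' with hd | hd | ⟨hd1, hd2⟩
  · have hd' : ((x + 2 ^ i : ℕ) : ℝ) ≤ (x' : ℝ) := by exact_mod_cast hd
    have h4 : p.1 = (x' : ℝ) := le_antisymm (h2.trans hd') h1'
    have h5 : p.1 = ((x + 2 ^ i : ℕ) : ℝ) := le_antisymm h2 (hd'.trans h1')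
    have h6 : x + 2 ^ i = x' := by
      have : ((x + 2 ^ i : ℕ) : ℝ) = (x' : ℝ) := by rw [← h4, ← h5]
      exact_mod_cast this
    refine ⟨pl x', hp x' (by omega) h4 (by rw [h3', h4]; ring), Or.inr ?_, Or.inl rfl⟩
    show pl x' = pl (x + 2 ^ i)
    rw [h6]
  · have hd' : ((x' + 2 ^ i' : ℕ) : ℝ) ≤ (x : ℝ) := by exact_mod_cast hd
    have h4 : p.1 = (x : ℝ) := le_antisymm (h2'.trans hd') h1
    have h5 : p.1 = ((x' + 2 ^ i' : ℕ) : ℝ) := le_antisymm h2' (hd'.trans h1)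
    have h6 : x' + 2 ^ i' = x := by
      have : ((x' + 2 ^ i' : ℕ) : ℝ) = (x : ℝ) := by rw [← h4, ← h5]
      exact_mod_cast this
    refine ⟨pl x, hp x (by omega) h4 (by rw [h3, h4]; ring), Or.inl rfl, Or.inr ?_⟩
    show pl x = pl (x' + 2 ^ i')
    rw [h6]
  · have k1 : (x' : ℝ) ≤ x := by exact_mod_cast hd1
    have k2 : ((x + 2 ^ i : ℕ) : ℝ) ≤ ((x' + 2 ^ i' : ℕ) : ℝ) := by exact_mod_cast hd2
    have hne' : ¬ ((x : ℝ) = x' ∧ ((x + 2 ^ i : ℕ) : ℝ) = ((x' + 2 ^ i' : ℕ) : ℝ)) := by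
      rintro ⟨k3, k4⟩
      have k5 : x = x' := by exact_mod_cast k3
      have k6 : x + 2 ^ i = x' + 2 ^ i' := by exact_mod_cast k4
      apply hne
      refine ⟨?_, k5⟩
      have k7 : 2 ^ i = 2 ^ i' := by omega
      exact Nat.pow_right_injective (le_refl 2) k7
    rcases chord_chord h1 h2 k1 k2 (h3.symm.trans h3') hne' with ⟨h4, h5⟩ | ⟨h4, h5⟩
    · have h6 : x = x' := by
        have : (x : ℝ) = (x' : ℝ) := by rw [← h4, ← h5]
        exact_mod_cast this
      refine ⟨pl x, hp x (by omega) h4 (by rw [h3, h4]; ring), Or.inl rfl, Or.inl ?_⟩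
      show pl x = pl x'
      rw [h6]
    · have h6 : x + 2 ^ i = x' + 2 ^ i' := by
        have : ((x + 2 ^ i : ℕ) : ℝ) = ((x' + 2 ^ i' : ℕ) : ℝ) := by rw [← h4, ← h5]
        exact_mod_cast this
      refine ⟨pl (x + 2 ^ i), hp _ hN h4 (by rw [h3, h4]; ring), Or.inr rfl, Or.inr ?_⟩
      show pl (x + 2 ^ i) = pl (x' + 2 ^ i')
      rw [h6]

/-- A lowest tree edge is strictly above the coarsest chord of its block. -/
theorem leaf_block (hr : 1 ≤ r) {j : ℕ} (hj1 : 2 ^ r ≤ j) (hj : j < 2 ^ (r + 1)) {p : ℝ × ℝ}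
    (h : p ∈ segment ℝ (F (e1 (treeE j) : Vt r s)) (F (e2 (treeE j) : Vt r s))) :
    ∃ L : ℕ, L = (2 * (j / 2) - 2 ^ r) * 2 ^ s ∧ L + 2 ^ s ≤ 2 ^ (r + s) ∧ (L : ℝ) ≤ p.1 ∧
      p.1 ≤ ((L + 2 ^ s : ℕ) : ℝ) ∧
      (j % 2 = 0 → p.1 ≤ (L : ℝ) + 1) ∧ (j % 2 = 1 → (L : ℝ) + 1 ≤ p.1) ∧
      (p = F (tr j : Vt r s) ∨
        ((L : ℝ) + ((L + 2 ^ s : ℕ) : ℝ)) * p.1 - (L : ℝ) * ((L + 2 ^ s : ℕ) : ℝ) < p.2) ∧
      (p.1 = (L : ℝ) + 1 → s ≠ 0 → p = F (nd (j / 2) : Vt r s)) := by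
  obtain ⟨t, h0, h1, h2, h3⟩ := leaf_seg hj1 hj h
  set i := j / 2 with hi
  obtain ⟨m, rfl⟩ : ∃ m, r = m + 1 := ⟨r - 1, by omega⟩
  have hp2 : 2 ^ (m + 1) = 2 * 2 ^ m := by rw [pow_succ]; ring
  have hp3 : 2 ^ (m + 1 + 1) = 4 * 2 ^ m := by rw [pow_succ, pow_succ]; ring
  have hi1 : 2 ^ (m + 1) ≤ 2 * i := by
    rw [hi]
    omega
  have hi2 : 2 * i + 2 ≤ 2 * 2 ^ (m + 1) := by
    rw [hi]
    omega
  set L := (2 * i - 2 ^ (m + 1)) * 2 ^ s with hL
  have hLN : L + 2 ^ s + 2 ^ s ≤ 2 ^ (m + 1 + s) + 0 := by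
    have h5 : 2 * i - 2 ^ (m + 1) + 2 ≤ 2 ^ (m + 1) := by omega
    calc L + 2 ^ s + 2 ^ s = (2 * i - 2 ^ (m + 1) + 2) * 2 ^ s := by rw [hL]; ring
      _ ≤ 2 ^ (m + 1) * 2 ^ s := Nat.mul_le_mul_right _ h5
      _ = 2 ^ (m + 1 + s) + 0 := by rw [add_zero]; exact (pow_add 2 (m + 1) s).symm
  have hs1 : 1 ≤ 2 ^ s := Nat.one_le_two_pow
  have hLR : (L : ℝ) = (2 * (i : ℝ) - 2 ^ (m + 1)) * 2 ^ s := by
    rw [hL]
    push_cast [Nat.cast_sub hi1]
    ring
  have hX : X (m + 1) s i = (L : ℝ) + 1 := by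
    rw [hLR]
    rfl
  have hR : ((L + 2 ^ s : ℕ) : ℝ) = (L : ℝ) + 2 ^ s := by push_cast; ring
  have hsR : (1:ℝ) ≤ 2 ^ s := by exact_mod_cast hs1
  have hNR : (L : ℝ) + 2 ^ s + 2 ^ s ≤ NN (m + 1) s := by
    unfold NN
    have := hLN
    rw [add_zero] at this
    exact_mod_cast this
  have hL0 : (0:ℝ) ≤ L := Nat.cast_nonneg L
  rw [hX] at h2
  have hN1 : (L : ℝ) + 1 ≤ NN (m + 1) s := by linarith
  refine ⟨L, rfl, by omega, ?_⟩
  rcases Nat.mod_two_eq_zero_or_one j with hjm | hjm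
  · -- left child
    have hC : (((j - 2 ^ (m + 1)) * 2 ^ s : ℕ) : ℝ) = L := by
      rw [hL, show j = 2 * i by omega]
    rw [hC] at h2 h3
    have e1 : p.1 = L + (1 - t) := by rw [h2]; ring
    refine ⟨by rw [e1]; linarith, by rw [e1, hR]; linarith, fun _ => by rw [e1]; linarith,
      fun h => by omega, ?_, ?_⟩
    · rcases eq_or_lt_of_le h1 with h4 | h4
      · left
        have h9 : (tr j : Vt (m + 1) s) = pl ((j - 2 ^ (m + 1)) * 2 ^ s) := by
          unfold tr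
          rw [if_neg (not_lt.2 hj1)]
        rw [h9, F_pl (le_trans (Nat.le_add_right _ _) (tr_pos_le (s := s) hj hj1)), hC]
        apply Prod.ext
        · show p.1 = L
          rw [e1, h4]
          ring
        · show p.2 = (L : ℝ) ^ 2
          rw [h3, h4]
          ring
      · right
        rw [h3, e1, hR]
        have h5 : (L : ℝ) ^ 2 + (L + (L + 2 ^ s)) < NN (m + 1) s ^ 2 + 1 := by
          have h6 : ((L : ℝ) + 2 ^ s) ^ 2 ≤ NN (m + 1) s ^ 2 := by
            apply pow_le_pow_left₀ (by positivity)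
            linarith
          nlinarith
        have h7 : (1 - t) * ((L : ℝ) ^ 2 + (L + (L + 2 ^ s))) < (1 - t) * (NN (m + 1) s ^ 2 + 1) :=
          mul_lt_mul_of_pos_left h5 (by linarith)
        nlinarith
    · intro h4 _
      have h5 : t = 0 := by linarith
      rw [F_nd (half_lt hj)]
      apply Prod.ext
      · show p.1 = X (m + 1) s (j / 2)
        rw [← hi, hX, h4]
      · show p.2 = Y (m + 1) s (j / 2)
        rw [h3, h5]
        have h6 : Nat.size j = m + 1 + 1 := by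
          apply le_antisymm
          · exact Nat.size_le.2 hj
          · exact Nat.lt_size.2 hj1
        have h7 : Nat.size (j / 2) = m + 1 := by
          have := size_half (le_trans Nat.one_le_two_pow hj1)
          omega
        unfold Y
        rw [h7]
        ring
  · -- right child
    have hC : (((j - 2 ^ (m + 1)) * 2 ^ s : ℕ) : ℝ) = L + 2 ^ s := by
      rw [hL, show j - 2 ^ (m + 1) = (2 * i - 2 ^ (m + 1)) + 1 by omega]
      push_cast
      ring
    rw [hC] at h2 h3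
    have e1 : p.1 = L + 1 + t * (2 ^ s - 1) := by rw [h2]; ring
    have h8 : 0 ≤ t * ((2:ℝ) ^ s - 1) := mul_nonneg h0 (by linarith)
    have h8' : t * ((2:ℝ) ^ s - 1) ≤ 2 ^ s - 1 := by nlinarith
    refine ⟨by rw [e1]; linarith, by rw [e1, hR]; linarith, fun h => by omega,
      fun _ => by rw [e1]; linarith, ?_, ?_⟩
    · rcases eq_or_lt_of_le h1 with h4 | h4
      · left
        have h9 : (tr j : Vt (m + 1) s) = pl ((j - 2 ^ (m + 1)) * 2 ^ s) := by
          unfold tr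
          rw [if_neg (not_lt.2 hj1)]
        rw [h9, F_pl (le_trans (Nat.le_add_right _ _) (tr_pos_le (s := s) hj hj1)), hC]
        apply Prod.ext
        · show p.1 = (L : ℝ) + 2 ^ s
          rw [e1, h4]
          ring
        · show p.2 = ((L : ℝ) + 2 ^ s) ^ 2
          rw [h3, h4]
          ring
      · right
        rw [h3, hR]
        have h6 : ((L : ℝ) + 2 ^ s) ^ 2 ≤ NN (m + 1) s ^ 2 := by
          apply pow_le_pow_left₀ (by positivity)
          linarith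
        have e2 : (1 - t) * (NN (m + 1) s ^ 2 + 1) + t * ((L : ℝ) + 2 ^ s) ^ 2 -
            (((L : ℝ) + (L + 2 ^ s)) * p.1 - (L : ℝ) * (L + 2 ^ s)) =
            (1 - t) * (NN (m + 1) s ^ 2 + 1 - ((L : ℝ) + 2 ^ s) ^ 2 +
              ((L : ℝ) + (L + 2 ^ s)) * (2 ^ s - 1)) := by
          rw [e1]
          ring
        have h10 : 0 < (1 - t) * (NN (m + 1) s ^ 2 + 1 - ((L : ℝ) + 2 ^ s) ^ 2 +
              ((L : ℝ) + (L + 2 ^ s)) * (2 ^ s - 1)) := by
          apply mul_pos (by linarith)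
          have : 0 ≤ ((L : ℝ) + (L + 2 ^ s)) * (2 ^ s - 1) :=
            mul_nonneg (by positivity) (by linarith)
          linarith
        linarith
    · intro h4 hs0
      have h11 : (2:ℝ) ≤ 2 ^ s := by
        have : 2 ^ 1 ≤ 2 ^ s := Nat.pow_le_pow_right (by norm_num) (Nat.one_le_iff_ne_zero.2 hs0)
        exact_mod_cast this
      have h5 : t = 0 := by
        have h12 : t * ((2:ℝ) ^ s - 1) = 0 := by linarith
        rcases mul_eq_zero.1 h12 with h | h
        · exact h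
        · linarith
      rw [F_nd (half_lt hj)]
      apply Prod.ext
      · show p.1 = X (m + 1) s (j / 2)
        rw [← hi, hX, h4]
      · show p.2 = Y (m + 1) s (j / 2)
        rw [h3, h5]
        have h6 : Nat.size j = m + 1 + 1 := by
          apply le_antisymm
          · exact Nat.size_le.2 hj
          · exact Nat.lt_size.2 hj1
        have h7 : Nat.size (j / 2) = m + 1 := by
          have := size_half (le_trans Nat.one_le_two_pow hj1)
          omega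
        unfold Y
        rw [h7]
        ring

theorem sh_pol_tree (hr : 1 ≤ r) (hs : 1 ≤ s) {i x j : ℕ} (hi : i ≤ s) (hx : 2 ^ i ∣ x)
    (hN : x + 2 ^ i ≤ 2 ^ (r + s)) (hj1 : 1 ≤ j) (hj : j < 2 ^ (r + 1)) {p : ℝ × ℝ}
    (h : p ∈ segment ℝ (F (e1 (polE i x) : Vt r s)) (F (e2 (polE i x) : Vt r s)))
    (h' : p ∈ segment ℝ (F (e1 (treeE j) : Vt r s)) (F (e2 (treeE j) : Vt r s))) :
    Sh (r := r) (s := s) (polE i x) (treeE j) p := by
  obtain ⟨h1, h2, h3⟩ := pol_seg hN h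
  -- a common point on the parabola is an end of both
  have hpar : p = F (tr j : Vt r s) → Sh (r := r) (s := s) (polE i x) (treeE j) p := by
    intro h4
    refine ⟨tr j, h4, ?_, Or.inr rfl⟩
    rcases lt_or_ge j (2 ^ r) with hjr | hjr
    · exfalso
      have h5 : (tr j : Vt r s) = nd j := by
        unfold tr
        rw [if_pos hjr]
      rw [h5, F_nd hjr] at h4
      have h6 : p.2 = Y r s j := congrArg Prod.snd h4
      have h7 := Y_gt (s := s) hjr
      have h8 := sq_le_NN (r := r) (s := s) hN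
      have hx0 : (0:ℝ) ≤ x := Nat.cast_nonneg x
      have hxb : (x : ℝ) ≤ ((x + 2 ^ i : ℕ) : ℝ) := by exact_mod_cast Nat.le_add_right _ _
      nlinarith
    · have h5 : (tr j : Vt r s) = pl ((j - 2 ^ r) * 2 ^ s) := by
        unfold tr
        rw [if_neg (not_lt.2 hjr)]
      have h6 : p.2 = p.1 ^ 2 := by
        rw [h4, h5, F_pl (le_trans (Nat.le_add_right _ _) (tr_pos_le (s := s) hj hjr))]
      rcases (pol_above hN h).2 h6 with h7 | h7
      · left
        exact F_inj (h4.symm.trans h7)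
      · right
        exact F_inj (h4.symm.trans h7)
  rcases lt_or_ge j (2 ^ r) with hjr | hjr
  · exfalso
    obtain ⟨t, t0, t1, t2, t3⟩ := tree_seg hj1 hjr h'
    have h5 : (Nat.size j : ℝ) ≤ r := by exact_mod_cast Nat.size_le.2 hjr
    have h8 := sq_le_NN (r := r) (s := s) hN
    have hx0 : (0:ℝ) ≤ x := Nat.cast_nonneg x
    have hxb : (x : ℝ) ≤ ((x + 2 ^ i : ℕ) : ℝ) := by exact_mod_cast Nat.le_add_right _ _
    have h9 : p.2 ≤ ((x + 2 ^ i : ℕ) : ℝ) ^ 2 := by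
      rw [h3]
      nlinarith
    linarith
  · obtain ⟨L, hL, hLN, g1, g2, g3, g4, g5, g6⟩ := leaf_block (s := s) hr hjr hj h'
    have hdiv : 2 ^ s ∣ L := by
      rw [hL]
      exact Dvd.intro_left _ rfl
    rcases g5 with g5 | g5
    · exact hpar g5
    rcases dyadic hi hx hdiv with hd | hd | ⟨hd1, hd2⟩
    · -- the chord is to the left
      have hd' : ((x + 2 ^ i : ℕ) : ℝ) ≤ L := by exact_mod_cast hd
      have h4 : p.1 = (L : ℝ) := le_antisymm (h2.trans hd') g1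
      rcases Nat.mod_two_eq_zero_or_one j with hjm | hjm
      · apply hpar
        -- `p` is on the parabola
        have h5 : p.1 = ((x + 2 ^ i : ℕ) : ℝ) := le_antisymm h2 (hd'.trans g1)
        have h6 : p.2 = p.1 ^ 2 := by rw [h3, h5]; ring
        exact (tree_above hj1 hj h').2 h6
      · have := g4 hjm
        linarith
    · have hd' : ((L + 2 ^ s : ℕ) : ℝ) ≤ x := by exact_mod_cast hd
      have h4 : p.1 = (x : ℝ) := le_antisymm (g2.trans hd') h1
      have h6 : p.2 = p.1 ^ 2 := by rw [h3, h4]; ring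
      exact hpar ((tree_above hj1 hj h').2 h6)
    · exfalso
      have k1 : (L : ℝ) ≤ x := by exact_mod_cast hd1
      have k2 : ((x + 2 ^ i : ℕ) : ℝ) ≤ ((L + 2 ^ s : ℕ) : ℝ) := by exact_mod_cast hd2
      set a : ℝ := (x : ℝ)
      set b : ℝ := ((x + 2 ^ i : ℕ) : ℝ)
      set c : ℝ := (L : ℝ)
      set d : ℝ := ((L + 2 ^ s : ℕ) : ℝ)
      have e : ((c + d) * p.1 - c * d) - ((a + b) * p.1 - a * b) =
          (d - p.1) * (p.1 - c) - (b - p.1) * (p.1 - a) := by ring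
      have k3 : (b - p.1) * (p.1 - a) ≤ (d - p.1) * (p.1 - c) :=
        mul_le_mul (by linarith) (by linarith) (by linarith) (by linarith)
      linarith

theorem X_mono {i i' : ℕ} (h : i < i') : X r s i + 2 * 2 ^ s ≤ X r s i' := by
  unfold X
  have h1 : (i : ℝ) + 1 ≤ i' := by exact_mod_cast h
  have h2 : (0:ℝ) < 2 ^ s := by positivity
  nlinarith

theorem X_mono' {i i' : ℕ} (h : i ≤ i') : X r s i ≤ X r s i' := by
  rcases h.lt_or_eq with h | rfl
  · have := X_mono (r := r) (s := s) h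
    have h2 : (0:ℝ) < 2 ^ s := by positivity
    linarith
  · exact le_rfl

theorem sh_tree_tree' (hr : 1 ≤ r) (hs : 1 ≤ s) {j j' : ℕ} (hj1 : 1 ≤ j)
    (hj' : j' < 2 ^ (r + 1)) (hlt : j < j') {p : ℝ × ℝ}
    (h : p ∈ segment ℝ (F (e1 (treeE j) : Vt r s)) (F (e2 (treeE j) : Vt r s)))
    (h' : p ∈ segment ℝ (F (e1 (treeE j') : Vt r s)) (F (e2 (treeE j') : Vt r s))) :
    Sh (r := r) (s := s) (treeE j) (treeE j') p := by
  have hj1' : 1 ≤ j' := by omega
  have hhalf : j / 2 ≤ j' / 2 := Nat.div_le_div_right hlt.le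
  rcases lt_or_ge j (2 ^ r) with hjr | hjr
  · obtain ⟨t, t0, t1, t2, t3⟩ := tree_seg hj1 hjr h
    have htr : (tr j : Vt r s) = nd j := by
      unfold tr
      rw [if_pos hjr]
    have hsz : (Nat.size j : ℝ) ≤ r := by exact_mod_cast Nat.size_le.2 hjr
    have hjh : j / 2 < 2 ^ r := lt_of_le_of_lt (Nat.div_le_self _ _) hjr
    -- the two possible common ends
    have hlow : t = 1 → p = F (nd j : Vt r s) := by
      intro h1
      rw [F_nd hjr]
      apply Prod.ext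
      · show p.1 = X r s j
        rw [t2, h1]
        ring
      · show p.2 = Y r s j
        rw [t3, h1]
        unfold Y
        ring
    have htop : t = 0 → p = F (nd (j / 2) : Vt r s) := by
      intro h1
      rw [F_nd hjh]
      apply Prod.ext
      · show p.1 = X r s (j / 2)
        rw [t2, h1]
        ring
      · show p.2 = Y r s (j / 2)
        rw [t3, h1]
        unfold Y
        rw [size_half hj1]
        push_cast
        ring
    rcases lt_or_ge j' (2 ^ r) with hjr' | hjr'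
    · obtain ⟨t', t0', t1', t2', t3'⟩ := tree_seg hj1' hjr' h'
      have hjh' : j' / 2 < 2 ^ r := lt_of_le_of_lt (Nat.div_le_self _ _) hjr'
      have htop' : t' = 0 → p = F (nd (j' / 2) : Vt r s) := by
        intro h1
        rw [F_nd hjh']
        apply Prod.ext
        · show p.1 = X r s (j' / 2)
          rw [t2', h1]
          ring
        · show p.2 = Y r s (j' / 2)
          rw [t3', h1]
          unfold Y
          rw [size_half hj1']
          push_cast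
          ring
      have hszle : Nat.size j ≤ Nat.size j' := Nat.size_le_size hlt.le
      rcases hszle.lt_or_eq with h5 | h5
      · have h6 : (Nat.size j : ℝ) + 1 ≤ Nat.size j' := by exact_mod_cast h5
        have h7 : t = 1 := by linarith
        have h8 : t' = 0 := by linarith
        have h9 := hlow h7
        refine ⟨nd j, h9, Or.inr htr.symm, Or.inl ?_⟩
        exact F_inj (h9.symm.trans (htop' h8))
      · have h6 : t = t' := by
          have : (Nat.size j : ℝ) = Nat.size j' := by exact_mod_cast h5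
          linarith
        have h7 := X_mono (r := r) (s := s) hlt
        have h8 := X_mono' (r := r) (s := s) hhalf
        have h2s : (0:ℝ) < 2 ^ s := by positivity
        have h9 : t = 0 := by
          rw [← h6] at t2'
          have h10 : (1 - t) * (X r s (j' / 2) - X r s (j / 2)) + t * (X r s j' - X r s j) = 0 := by
            linarith
          have h11 : 0 ≤ (1 - t) * (X r s (j' / 2) - X r s (j / 2)) :=
            mul_nonneg (by linarith) (by linarith)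
          have h12 : t * (X r s j' - X r s j) ≤ 0 := by linarith
          by_contra hne
          have h13 : 0 < t := lt_of_le_of_ne t0 (Ne.symm hne)
          have h14 : 0 < t * (X r s j' - X r s j) := mul_pos h13 (by linarith)
          linarith
        have h10 := htop h9
        refine ⟨nd (j / 2), h10, Or.inl rfl, Or.inl ?_⟩
        exact F_inj (h10.symm.trans (htop' (h6 ▸ h9)))
    · obtain ⟨t', t0', t1', t2', t3'⟩ := leaf_seg hjr' hj' h'
      have hle : (j' - 2 ^ r) * 2 ^ s ≤ 2 ^ (r + s) :=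
        le_trans (Nat.le_add_right _ _) (tr_pos_le (s := s) hj' hjr')
      have h5 := sq_le_NN hle
      have h6 : t' = 0 := by
        have h7 : p.2 ≤ NN r s ^ 2 + 1 - t' := by
          rw [t3']
          nlinarith
        linarith
      have h7 : t = 1 := by
        have h8 : p.2 = NN r s ^ 2 + 1 := by rw [t3', h6]; ring
        linarith
      have h8 := hlow h7
      refine ⟨nd j, h8, Or.inr htr.symm, Or.inl ?_⟩
      apply F_inj
      rw [← h8]
      show p = F (nd (j' / 2) : Vt r s)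
      rw [F_nd (half_lt hj')]
      apply Prod.ext
      · show p.1 = X r s (j' / 2)
        rw [t2', h6]
        ring
      · show p.2 = Y r s (j' / 2)
        have h9 : Nat.size (j' / 2) = r := by
          have h10 : Nat.size j' = r + 1 := by
            apply le_antisymm
            · exact Nat.size_le.2 hj'
            · exact Nat.lt_size.2 hjr'
          have := size_half hj1'
          omega
        unfold Y
        rw [t3', h6, h9]
        ring
  · have hjr' : 2 ^ r ≤ j' := hjr.trans hlt.le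
    have hj : j < 2 ^ (r + 1) := hlt.trans hj'
    obtain ⟨L, hL, hLN, g1, g2, g3, g4, g5, g6⟩ := leaf_block (s := s) hr hjr hj h
    obtain ⟨L', hL', hLN', g1', g2', g3', g4', g5', g6'⟩ := leaf_block (s := s) hr hjr' hj' h'
    rcases hhalf.lt_or_eq with h5 | h5
    · exfalso
      obtain ⟨m, rfl⟩ : ∃ m, r = m + 1 := ⟨r - 1, by omega⟩
      have hp2 : 2 ^ (m + 1) = 2 * 2 ^ m := by rw [pow_succ]; ring
      have h6 : 2 * (j / 2) - 2 ^ (m + 1) + 2 ≤ 2 * (j' / 2) - 2 ^ (m + 1) := by omega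
      have h7 : L + 2 ^ s + 2 ^ s ≤ L' := by
        calc L + 2 ^ s + 2 ^ s = (2 * (j / 2) - 2 ^ (m + 1) + 2) * 2 ^ s := by rw [hL]; ring
          _ ≤ (2 * (j' / 2) - 2 ^ (m + 1)) * 2 ^ s := Nat.mul_le_mul_right _ h6
          _ = L' := hL'.symm
      have h8 : ((L + 2 ^ s : ℕ) : ℝ) + 2 ^ s ≤ L' := by exact_mod_cast h7
      have h2s : (0:ℝ) < 2 ^ s := by positivity
      linarith
    · have hLL : L = L' := by rw [hL, hL', h5]
      have hm : j % 2 = 0 := by omega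
      have hm' : j' % 2 = 1 := by omega
      have k1 := g3 hm
      have k2 := g4' hm'
      rw [← hLL] at k2
      have k3 : p.1 = (L : ℝ) + 1 := le_antisymm k1 k2
      have k4 := g6 k3 (by omega)
      refine ⟨nd (j / 2), k4, Or.inl rfl, Or.inl ?_⟩
      show nd (j / 2) = nd (j' / 2)
      rw [h5]

theorem sh_all (hr : 1 ≤ r) (hs : 1 ≤ s) {l l' : Lb} (hl : Vd r s l) (hl' : Vd r s l')
    (hne : l ≠ l') {p : ℝ × ℝ}
    (h : p ∈ segment ℝ (F (e1 l : Vt r s)) (F (e2 l : Vt r s)))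
    (h' : p ∈ segment ℝ (F (e1 l' : Vt r s)) (F (e2 l' : Vt r s))) :
    Sh (r := r) (s := s) l l' p := by
  cases l with
  | hubE v =>
    cases l' with
    | hubE v' => exact sh_hub_hub hl hl' (fun e => hne (by rw [e])) h h'
    | polE i x => exact sh_hub_pol hl hl'.2.2 h h'
    | treeE j => exact sh_hub_tree hl hl'.1 hl'.2 h h'
  | polE i x =>
    cases l' with
    | hubE v' => exact (sh_hub_pol hl' hl.2.2 h' h).symm
    | polE i' x' =>
      rcases le_total i i' with hii | hii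
      · exact sh_pol_pol' hii hl.2.1 hl'.2.1 hl.2.2 hl'.2.2
          (fun e => hne (by rw [e.1, e.2])) h h'
      · exact (sh_pol_pol' hii hl'.2.1 hl.2.1 hl'.2.2 hl.2.2
          (fun e => hne (by rw [e.1, e.2])) h' h).symm
    | treeE j => exact sh_pol_tree hr hs hl.1 hl.2.1 hl.2.2 hl'.1 hl'.2 h h'
  | treeE j =>
    cases l' with
    | hubE v' => exact (sh_hub_tree hl' hl.1 hl.2 h' h).symm
    | polE i' x' => exact (sh_pol_tree hr hs hl'.1 hl'.2.1 hl'.2.2 hl.1 hl.2 h' h).symm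
    | treeE j' =>
      rcases lt_trichotomy j j' with hlt | rfl | hlt
      · exact sh_tree_tree' hr hs hl.1 hl'.2 hlt h h'
      · exact absurd rfl hne
      · exact (sh_tree_tree' hr hs hl'.1 hl.2 hlt h' h).symm

/-- The graphs are planar. -/
theorem planar_GG (hr : 1 ≤ r) (hs : 1 ≤ s) : Planar (GG r s) := by
  have hmeet : ∀ a b c d : Vt r s, (GG r s).Adj a b → (GG r s).Adj c d → s(a, b) ≠ s(c, d) →
      ∀ p ∈ segment ℝ (F a) (F b) ∩ segment ℝ (F c) (F d),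
        ∃ v, p = F v ∧ (v = a ∨ v = b) ∧ (v = c ∨ v = d) := by
    rintro a b c d ⟨l, h1, -, h2⟩ ⟨l', h1', -, h2'⟩ hne p ⟨h3, h4⟩
    have hne' : l ≠ l' := by
      rintro rfl
      apply hne
      rcases h2 with ⟨rfl, rfl⟩ | ⟨rfl, rfl⟩ <;> rcases h2' with ⟨rfl, rfl⟩ | ⟨rfl, rfl⟩ <;>
        first | rfl | exact Sym2.eq_swap
    have h5 : p ∈ segment ℝ (F (e1 l : Vt r s)) (F (e2 l : Vt r s)) := by
      rcases h2 with ⟨rfl, rfl⟩ | ⟨rfl, rfl⟩
      · exact h3
      · rwa [segment_symm]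
    have h6 : p ∈ segment ℝ (F (e1 l' : Vt r s)) (F (e2 l' : Vt r s)) := by
      rcases h2' with ⟨rfl, rfl⟩ | ⟨rfl, rfl⟩
      · exact h4
      · rwa [segment_symm]
    obtain ⟨v, h7, h8, h9⟩ := sh_all hr hs h1 h1' hne' h5 h6
    refine ⟨v, h7, ?_, ?_⟩
    · rcases h2 with ⟨rfl, rfl⟩ | ⟨rfl, rfl⟩
      · exact h8
      · exact h8.symm
    · rcases h2' with ⟨rfl, rfl⟩ | ⟨rfl, rfl⟩
      · exact h9
      · exact h9.symm
  refine ⟨F, F_inj, ?_, hmeet⟩
  intro a b v hab hv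
  -- `v` has a neighbour
  have hnb : ∃ w, (GG r s).Adj v w := by
    rcases vt_cases v with rfl | ⟨i, hi, rfl⟩ | ⟨u, hu, rfl⟩
    · exact ⟨_, adj_hub (Nat.zero_le _)⟩
    · have h1 := adj_tree (r := r) (s := s) (j := 2 * i + 1) (by omega) (by
        rw [pow_succ]
        omega)
      rw [show (2 * i + 1) / 2 = i by omega] at h1
      exact ⟨_, h1⟩
    · exact ⟨_, (adj_hub hu).symm⟩
  obtain ⟨w, hw⟩ := hnb
  by_cases hne : s(a, b) = s(v, w)
  · have h1 : v ∈ s(a, b) := by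
      rw [hne]
      exact Sym2.mem_mk_left _ _
    rwa [Sym2.mem_iff] at h1
  · obtain ⟨v', h1, h2, -⟩ := hmeet a b v w hab hw hne (F v) ⟨hv, left_mem_segment _ _ _⟩
    rw [F_inj h1]
    exact h2

end Pool.Agent.K3h79.PP
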